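import Mathlib

/-!
Definitions used in the statements: holes, perfect graphs, formulas, encodings of the inputs.
-/

set_option autoImplicit false

namespace Pool.Agent.MP_08b96b_lc

open SimpleGraph

/-- `u` and `v` lie on a common hole of `G`: some induced cycle on at least four vertices contains
both. -/
def OnCommonHole {V : Type} (G : SimpleGraph V) (u v : V) : Prop :=
  ∃ k : ℕ, 4 ≤ k ∧ ∃ φ : cycleGraph k ↪g G, u ∈ Set.range φ ∧ v ∈ Set.range φ

/-- `G` is perfect: the chromatic number of each induced subgraph is its clique number. -/
def IsPerfect {V : Type} (G : SimpleGraph V) : Prop :=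
  ∀ s : Set V, (G.induce s).chromaticNumber = ((G.induce s).cliqueNum : ℕ∞)

/-- inputs of the problem: a graph on `n` vertices and two vertices -/
structure HoleInput where
  n : ℕ
  G : SimpleGraph (Fin n)
  decAdj : DecidableRel G.Adj
  u : Fin n
  v : Fin n

/-- code of an input: `1^n 0`, the adjacency matrix row by row, `1^u 0`, `1^v 0` -/
def HoleInput.encode (I : HoleInput) : List Bool :=
  haveI := I.decAdj
  List.replicate I.n true ++ false ::
    ((List.ofFn fun i : Fin I.n => List.ofFn fun j : Fin I.n => decide (I.G.Adj i j)).flatten ++
      (List.replicate I.u.val true ++ false :: (List.replicate I.v.val true ++ [false])))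

/-- inputs that satisfy the promise: the graph is perfect and the two vertices are distinct -/
abbrev PerfectInput : Type := {I : HoleInput // IsPerfect I.G ∧ I.u ≠ I.v}

end Pool.Agent.MP_08b96b_lc
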