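import Pool.Agent.MP_08b96b_lc.RedCorrect
import Pool.Agent.Lib.helper60.ParseCNF

/-!
The reduction is computable in polynomial time.
-/

set_option autoImplicit false

namespace Pool.Agent.MP_08b96b_lc

open SimpleGraph Lib.helper60

/-! ### vertices as data -/

instance : DEnc Vtx := ⟨fun x => toD (x.c, x.i, x.o, x.k)⟩

section

variable {α : Type} [DEnc α]

lemma PT_vtx_tuple {f : α → Vtx} (hf : PT f) :
    PT (fun a => ((f a).c, (f a).i, (f a).o, (f a).k)) :=
  (PT.recode (f := fun x : Vtx => (x.c, x.i, x.o, x.k)) (fun _ => rfl)).comp hf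

lemma PT_c {f : α → Vtx} (hf : PT f) : PT (fun a => (f a).c) := (PT_vtx_tuple hf).p1
lemma PT_i {f : α → Vtx} (hf : PT f) : PT (fun a => (f a).i) := (PT_vtx_tuple hf).p2.p1
lemma PT_o {f : α → Vtx} (hf : PT f) : PT (fun a => (f a).o) := (PT_vtx_tuple hf).p2.p2.p1
lemma PT_k {f : α → Vtx} (hf : PT f) : PT (fun a => (f a).k) := (PT_vtx_tuple hf).p2.p2.p2

lemma PT_mk {c i o k : α → ℕ} (hc : PT c) (hi : PT i) (ho : PT o) (hk : PT k) :
    PT (fun a => (⟨c a, i a, o a, k a⟩ : Vtx)) := by
  have h := PT.pair hc (PT.pair hi (PT.pair ho hk))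
  exact (PT.recode (f := fun x : ℕ × ℕ × ℕ × ℕ => (⟨x.1, x.2.1, x.2.2.1, x.2.2.2⟩ : Vtx))
    (fun _ => rfl)).comp h

end

section

variable {α : Type} [DEnc α] {n : α → ℕ} {φ : α → CNF} {x y : α → Vtx}

lemma PT_lit {j p : α → ℕ} (hφ : PT φ) (hj : PT j) (hp : PT p) :
    PT (fun a => lit (φ a) (j a) (p a)) :=
  PT.getD (PT.getD hφ hj (PT.const _)) hp (PT.const _)

lemma PT_lab (hφ : PT φ) (hx : PT x) : PT (fun a => lab (φ a) (x a)) := by
  unfold lab
  exact PT.ite (PT.nle (PT_c hx) (PT.const 1))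
    (PT.pair (PT_i hx) (PT.neq (PT_o hx) (PT.const 1))) (PT_lit hφ (PT_i hx) (PT_o hx))

lemma PT_actB (hφ : PT φ) (hx : PT x) : PT (fun a => actB (φ a) (x a)) := by
  unfold actB
  refine PT.dand (PT.nle (PT_c hx) (PT.const 2)) (PT.neq (PT_k hx) ?_)
  exact PT.ite (PT.beq (PT_lab hφ hx).p2 (PT.const true)) (PT.const 1) (PT.const 2)

lemma PT_confB (hφ : PT φ) (hx : PT x) (hy : PT y) : PT (fun a => confB (φ a) (x a) (y a)) := by
  unfold confB
  refine PT.band (PT_actB hφ hx) (PT.band (PT_actB hφ hy) (PT.dand ?_ (PT.dnot ?_)))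
  · exact PT.neq (PT_lab hφ hx).p1 (PT_lab hφ hy).p1
  · exact PT.beq (PT_lab hφ hx).p2 (PT_lab hφ hy).p2

lemma PT_stpB (hn : PT n) (hφ : PT φ) (hx : PT x) (hy : PT y) :
    PT (fun a => stpB (n a) (φ a) (x a) (y a)) := by
  unfold stpB
  have c3 : PT (fun _ : α => 3) := PT.const 3
  refine PT.dor ?_ ?_
  · refine PT.dand (PT.neq (PT_c hx) (PT_c hy)) (PT.dand (PT.neq (PT_i hx) (PT_i hy))
      (PT.dand (PT.nle (PT_c hx) (PT.const 2)) (PT.dand (PT.neq (PT_k hy) (PT.nsucc (PT_k hx)))
        (PT.dor (PT.dnot (PT.neq (PT_k hx) (PT.const 1))) (PT.neq (PT_o hx) (PT_o hy))))))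
  · refine PT.dand (PT.neq (PT_k hx) (PT.const 3)) (PT.dand (PT.neq (PT_k hy) (PT.const 0)) ?_)
    refine PT.dor ?_ (PT.dor ?_ (PT.dor ?_ (PT.dor ?_ ?_)))
    · exact PT.dand (PT.neq (PT_c hx) (PT.const 3)) (PT.dand (PT.nle (PT_c hy) (PT.const 1))
        (PT.neq (PT_i hy) (PT.const 0)))
    · exact PT.dand (PT.nle (PT_c hx) (PT.const 2)) (PT.dand (PT.neq (PT_c hy) (PT_c hx))
        (PT.neq (PT_i hy) (PT.nsucc (PT_i hx))))
    · exact PT.dand (PT.neq (PT_c hx) (PT.const 0)) (PT.dand (PT.neq (PT.nsucc (PT_i hx)) hn)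
        (PT.neq (PT_c hy) (PT.const 4)))
    · exact PT.dand (PT.neq (PT_c hx) (PT.const 1)) (PT.dand (PT.neq (PT.nsucc (PT_i hx)) hn)
        (PT.dand (PT.neq (PT_c hy) (PT.const 2)) (PT.neq (PT_i hy) (PT.const 0))))
    · exact PT.dand (PT.neq (PT_c hx) (PT.const 2))
        (PT.dand (PT.neq (PT.nsucc (PT_i hx)) (PT.length hφ)) (PT.neq (PT_c hy) (PT.const 4)))

lemma PT_adjB (hn : PT n) (hφ : PT φ) (hx : PT x) (hy : PT y) :
    PT (fun a => adjB (n a) (φ a) (x a) (y a)) :=
  PT.bor (PT_stpB hn hφ hx hy) (PT.bor (PT_stpB hn hφ hy hx) (PT_confB hφ hx hy))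

lemma PT_vblock {c i w : α → ℕ} (hc : PT c) (hi : PT i) (hw : PT w) :
    PT (fun a => vblock (c a) (i a) (w a)) := by
  unfold vblock
  refine PT.cons (PT_mk hc hi (PT.const 0) (PT.const 0)) (PT.cons
    (PT_mk hc hi (PT.const 0) (PT.const 3)) ?_)
  exact PT.flatMap (g := fun z : α × ℕ =>
      [(⟨c z.1, i z.1, z.2, 1⟩ : Vtx), ⟨c z.1, i z.1, z.2, 2⟩])
    (PT.range hw) (PT.cons (PT_mk (hc.comp PT.fst) (hi.comp PT.fst) PT.snd (PT.const 1))
      (PT.cons (PT_mk (hc.comp PT.fst) (hi.comp PT.fst) PT.snd (PT.const 2)) (PT.const [])))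

lemma PT_verts (hn : PT n) (hφ : PT φ) : PT (fun a => verts (n a) (φ a)) := by
  unfold verts
  refine PT.cons (PT.const uu) (PT.cons (PT.const vv) (PT.append ?_ ?_))
  · exact PT.flatMap (g := fun z : α × ℕ => vblock 0 z.2 2 ++ vblock 1 z.2 2) (PT.range hn)
      (PT.append (PT_vblock (PT.const 0) PT.snd (PT.const 2))
        (PT_vblock (PT.const 1) PT.snd (PT.const 2)))
  · exact PT.flatMap (g := fun z : α × ℕ => vblock 2 z.2 ((φ z.1).getD z.2 []).length)
      (PT.range (PT.length hφ))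
      (PT_vblock (PT.const 2) PT.snd (PT.length (PT.getD (hφ.comp PT.fst) PT.snd (PT.const []))))

lemma PT_nvar : PT nvar := by
  unfold nvar
  have hg : PT (fun z : CNF × ℕ × Lit => z.2.1 + z.2.2.1) :=
    PT.nadd PT.snd.p1 PT.snd.p2.p1
  refine PT.foldl (g := fun z : CNF × ℕ × Lit => z.2.1 + z.2.2.1) (init := fun _ => 1)
    (PT.flatten PT.id) (PT.const 1) hg ⟨fun φ => 2 * (1 + tsize φ) + 1, ?_, ?_⟩
  · exact ((PB.const 2).mul ((PB.const 1).add PB.tsize)).add (PB.const 1)
  · intro φ l₁ l₂ h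
    have h1 : ∀ (l : List Lit) (s : ℕ), l.foldl (fun s l => s + l.1) s ≤ s + tsize l := by
      intro l
      induction l with
      | nil => intro s; simp
      | cons a l ih =>
        intro s
        have h2 := ih (s + a.1)
        have h3 : a.1 ≤ tsize a := by
          have : tsize a = tsize a.1 + tsize a.2 + 1 := tsize_pair a.1 a.2
          rw [this, tsize_nat]
          omega
        simp only [List.foldl_cons, tsize_cons]
        omega
    have h2 := h1 l₁ 1
    have h3 : tsize l₁ ≤ tsize φ := by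
      have h4 := tsize_append l₁ l₂
      rw [h] at h4
      have h5 := tsize_flatten_le φ
      have h6 := tsize_pos l₂
      omega
    simp only [tsize_nat]
    omega

end

/-! ### the code of the output -/

lemma ofFn_matrix {α : Type} (V : List α) (g : α → α → Bool) :
    (List.ofFn fun i : Fin V.length => List.ofFn fun j : Fin V.length =>
      g (V.get i) (V.get j)).flatten = V.flatMap (fun x => V.map (fun y => g x y)) := by
  have h2 : ∀ i : Fin V.length, (List.ofFn fun j : Fin V.length => g (V.get i) (V.get j)) =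
      V.map (fun y => g (V.get i) y) := by
    intro i
    have h3 : (fun j : Fin V.length => g (V.get i) (V.get j)) = (fun y => g (V.get i) y) ∘ V.get :=
      rfl
    rw [h3, ← List.map_ofFn, List.ofFn_get]
  have h4 : (fun i : Fin V.length => List.ofFn fun j : Fin V.length => g (V.get i) (V.get j)) =
      (fun x => V.map (fun y => g x y)) ∘ V.get := by
    funext i
    exact h2 i
  rw [h4, ← List.map_ofFn, List.ofFn_get, List.flatMap_def]

lemma encode_mk {N : ℕ} (G : SimpleGraph (Fin N)) (d : DecidableRel G.Adj) (u v : Fin N)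
    (g : Fin N → Fin N → Bool) (hg : ∀ i j, g i j = true ↔ G.Adj i j) :
    HoleInput.encode ⟨N, G, d, u, v⟩ = List.replicate N true ++ false ::
      ((List.ofFn fun i : Fin N => List.ofFn fun j : Fin N => g i j).flatten ++
      (List.replicate u.val true ++ false :: (List.replicate v.val true ++ [false]))) := by
  unfold HoleInput.encode
  have : (fun i : Fin N => List.ofFn fun j : Fin N => @decide (G.Adj i j) (d i j)) =
      (fun i : Fin N => List.ofFn fun j : Fin N => g i j) := by
    funext i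
    congr 1
    funext j
    rw [Bool.eq_iff_iff, decide_eq_true_iff]
    exact (hg i j).symm
  simp only [this]

lemma enc_red (φ : CNF) : (red φ).encode =
    List.replicate (verts (nvar φ) (ext' φ)).length true ++ false ::
      (((verts (nvar φ) (ext' φ)).flatMap (fun x => (verts (nvar φ) (ext' φ)).map
        (fun y => adjB (nvar φ) (ext' φ) x y))) ++ [false, true, false]) := by
  rw [← ofFn_matrix]
  exact encode_mk _ _ _ _ (fun i j => adjB (nvar φ) (ext' φ) (vmap φ i) (vmap φ j))
    (fun i j => adjB_iff (mem_verts.1 (List.get_mem _ i)) (mem_verts.1 (List.get_mem _ j)))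

/-- the output code as a polynomial-time function of the formula -/
theorem PT_enc_red : PT (fun φ : CNF => (red φ).encode) := by
  have hext : PT ext' := PT.cons (PT.const _) PT.id
  have hV : PT (fun φ : CNF => verts (nvar φ) (ext' φ)) := PT_verts PT_nvar hext
  have h1 : PT (fun φ : CNF => List.replicate (verts (nvar φ) (ext' φ)).length true ++ false ::
      (((verts (nvar φ) (ext' φ)).flatMap (fun x => (verts (nvar φ) (ext' φ)).map
        (fun y => adjB (nvar φ) (ext' φ) x y))) ++ [false, true, false])) := by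
    refine PT.append (PT.replicate (PT.length hV) (PT.const true)) (PT.cons (PT.const false)
      (PT.append ?_ (PT.const _)))
    refine PT.flatMap (g := fun z : CNF × Vtx => (verts (nvar z.1) (ext' z.1)).map
        (fun y => adjB (nvar z.1) (ext' z.1) z.2 y)) hV ?_
    refine PT.map (g := fun z : (CNF × Vtx) × Vtx => adjB (nvar z.1.1) (ext' z.1.1) z.1.2 z.2)
      (hV.comp PT.fst) ?_
    exact PT_adjB (PT_nvar.comp PT.fst.p1) (hext.comp PT.fst.p1) PT.fst.p2 PT.snd
  exact h1.congr fun φ => (enc_red φ).symm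

/-- **The reduction is computed by a Turing machine in polynomial time.** -/
theorem red_polytime :
    Nonempty (Turing.TM2ComputableInPolyTime encCNF HoleInput.encode red) :=
  PT.toTM2 (F := fun w => (red (parse w)).encode) (PT_enc_red.comp PT_parse)
    (fun φ => by rw [parse_enc])

end Pool.Agent.MP_08b96b_lc
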