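import Pool.Agent.MP_08b96b_lc.HoleNP
import Pool.Agent.MP_08b96b_lc.RedPT
import Pool.Agent.Lib.helper60.Bridge

/-!
The question on perfect graphs is equivalent to P = NP.
-/

set_option autoImplicit false

namespace Pool.Agent.MP_08b96b_lc

open SimpleGraph Lib.helper60 Turing Computability

/-- inputs with a bipartite graph and two distinct vertices -/
abbrev BipartiteInput : Type := {I : HoleInput // I.G.Colorable 2 ∧ I.u ≠ I.v}

/-- a polynomial-time algorithm for all graphs from P = NP -/
theorem algorithm_of_eq (h : ∀ L : Set (List Bool), InNP L → InP L) :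
    ∃ d : List Bool → Bool,
      Nonempty (TM2ComputableInPolyTime (fun w : List Bool => w) encodeBool d) ∧
      ∀ I : HoleInput, I.u ≠ I.v → (d I.encode = true ↔ OnCommonHole I.G I.u I.v) := by
  let Lg : Set (List Bool) := {w | ∃ c : List Bool,
    c.length ≤ (Polynomial.X * Polynomial.X : Polynomial ℕ).eval w.length ∧ verif (w, c) = true}
  have hL : InNP Lg := ⟨verif, Polynomial.X * Polynomial.X, PT.verifier PT_verif, fun w => Iff.rfl⟩
  obtain ⟨d, hd, hdL⟩ := h Lg hL
  refine ⟨d, hd, ?_⟩
  intro I huv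
  rw [← hdL I.encode]
  constructor
  · rintro ⟨c, _, hc⟩
    exact verif_sound I c hc
  · intro hI
    obtain ⟨c, hc, hv⟩ := verif_complete I huv hI
    refine ⟨c, hc.trans ?_, hv⟩
    have hlen : I.n ≤ I.encode.length := by
      rw [I.encode_eq]
      simp
    simp only [Polynomial.eval_mul, Polynomial.eval_X]
    exact Nat.mul_le_mul hlen hlen

/-- every language in NP reduces to the problem on bipartite graphs -/
theorem np_hard {L : Set (List Bool)} (hL : InNP L) : ∃ f : List Bool → BipartiteInput,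
    Nonempty (TM2ComputableInPolyTime (fun w : List Bool => w)
      (fun I : BipartiteInput => I.1.encode) f) ∧
    ∀ w, w ∈ L ↔ OnCommonHole (f w).1.G (f w).1.u (f w).1.v := by
  obtain ⟨f, ⟨hf⟩, hfL⟩ := sat_hard hL
  obtain ⟨hr⟩ := red_polytime
  obtain ⟨h1⟩ := TM2_comp hf hr
  refine ⟨fun w => ⟨red (f w), red_colorable (f w), red_ne (f w)⟩,
    ⟨{ toTM2ComputableAux := h1.toTM2ComputableAux
       time := h1.time
       outputsFun := h1.outputsFun }⟩, ?_⟩
  intro w
  rw [hfL w]
  exact red_correct (f w)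

/-- P = NP from a polynomial-time algorithm for bipartite graphs -/
theorem eq_of_algorithm {d : BipartiteInput → Bool}
    (hd : Nonempty (TM2ComputableInPolyTime (fun I : BipartiteInput => I.1.encode) encodeBool d))
    (hc : ∀ I : BipartiteInput, d I = true ↔ OnCommonHole I.1.G I.1.u I.1.v)
    (L : Set (List Bool)) (hL : InNP L) : InP L := by
  obtain ⟨f, ⟨hf⟩, hfL⟩ := np_hard hL
  obtain ⟨hd⟩ := hd
  refine ⟨d ∘ f, TM2_comp hf hd, ?_⟩
  intro w
  rw [hfL w]
  exact (hc (f w)).symm

/-- restriction to a part of the inputs -/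
def restrictTM {α β γ : Type} {ea : α → List Bool} {eb : β → List Bool} {ec : γ → List Bool}
    {f : α → β} (i : γ → α) (h : TM2ComputableInPolyTime ea eb f) (hi : ∀ c, ea (i c) = ec c) :
    TM2ComputableInPolyTime ec eb (fun c => f (i c)) where
  toTM2ComputableAux := h.toTM2ComputableAux
  time := h.time
  outputsFun := fun c => by
    rw [← hi c]
    exact h.outputsFun (i c)

/-- perfect graphs -/
theorem perfect_iff :
    (∃ d : PerfectInput → Bool,
      Nonempty (TM2ComputableInPolyTime (fun I : PerfectInput => I.1.encode) encodeBool d) ∧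
      ∀ I : PerfectInput, d I = true ↔ OnCommonHole I.1.G I.1.u I.1.v) ↔
    ∀ L : Set (List Bool), InP L ↔ InNP L := by
  constructor
  · rintro ⟨d, ⟨hd⟩, hc⟩ L
    let i : BipartiteInput → PerfectInput := fun I => ⟨I.1, isPerfect_of_colorable I.2.1, I.2.2⟩
    exact ⟨InP.inNP, eq_of_algorithm (d := fun I => d (i I)) ⟨restrictTM i hd (fun _ => rfl)⟩
      (fun I => hc (i I)) L⟩
  · intro h
    obtain ⟨d, ⟨hd⟩, hc⟩ := algorithm_of_eq (fun L => (h L).2)
    exact ⟨fun I => d I.1.encode, ⟨restrictTM (fun I : PerfectInput => I.1.encode) hd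
      (fun _ => rfl)⟩, fun I => hc I.1 I.2.2⟩

/-- bipartite graphs -/
theorem bipartite_iff :
    (∃ d : BipartiteInput → Bool,
      Nonempty (TM2ComputableInPolyTime (fun I : BipartiteInput => I.1.encode) encodeBool d) ∧
      ∀ I : BipartiteInput, d I = true ↔ OnCommonHole I.1.G I.1.u I.1.v) ↔
    ∀ L : Set (List Bool), InP L ↔ InNP L := by
  constructor
  · rintro ⟨d, hd, hc⟩ L
    exact ⟨InP.inNP, eq_of_algorithm hd hc L⟩
  · intro h
    obtain ⟨d, ⟨hd⟩, hc⟩ := algorithm_of_eq (fun L => (h L).2)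
    exact ⟨fun I => d I.1.encode, ⟨restrictTM (fun I : BipartiteInput => I.1.encode) hd
      (fun _ => rfl)⟩, fun I => hc I.1 I.2.2⟩

end Pool.Agent.MP_08b96b_lc
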