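import Pool.Agent.MP_08b96b_lc.Hole
import Pool.Agent.Lib.helper60.CNF

/-!
The graph of a formula, and the proof that a hole through the two special vertices yields a
satisfying assignment.
-/

set_option autoImplicit false

namespace Pool.Agent.MP_08b96b_lc

open SimpleGraph Lib.helper60

/-- vertices: `c` = chain (0, 1: the two copies of the variable chain, 2: the clause chain,
3, 4: the two special vertices), `i` = block, `o` = option, `k` = level (0 entrance, 3 exit) -/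
@[ext] structure Vtx where
  c : ℕ
  i : ℕ
  o : ℕ
  k : ℕ
  deriving DecidableEq

/-- `p`-th literal of clause `j` -/
def lit (φ : CNF) (j p : ℕ) : Lit := (φ.getD j []).getD p (0, false)

variable (n : ℕ) (φ : CNF)

/-- the vertices that exist -/
def Valid (x : Vtx) : Prop :=
  (x.c ≤ 1 ∧ x.i < n ∧ x.k ≤ 3 ∧ x.o ≤ 1 ∧ ((x.k = 0 ∨ x.k = 3) → x.o = 0)) ∨
  (x.c = 2 ∧ x.i < φ.length ∧ x.k ≤ 3 ∧ ((x.k = 0 ∨ x.k = 3) → x.o = 0) ∧
    ((x.k = 1 ∨ x.k = 2) → x.o < (φ.getD x.i []).length)) ∨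
  (x.c = 3 ∧ x.i = 0 ∧ x.o = 0 ∧ x.k = 3) ∨
  (x.c = 4 ∧ x.i = 0 ∧ x.o = 0 ∧ x.k = 0)

/-- label of a vertex: the literal it stands for -/
def lab (x : Vtx) : Lit := if x.c ≤ 1 then (x.i, decide (x.o = 1)) else lit φ x.i x.o

/-- active vertices -/
def Act (x : Vtx) : Prop := x.c ≤ 2 ∧ x.k = if (lab φ x).2 = true then 1 else 2

/-- conflict edges -/
def Conf (x y : Vtx) : Prop :=
  Act φ x ∧ Act φ y ∧ (lab φ x).1 = (lab φ y).1 ∧ (lab φ x).2 ≠ (lab φ y).2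

/-- directed path edges -/
def Stp (x y : Vtx) : Prop :=
  (x.c = y.c ∧ x.i = y.i ∧ x.c ≤ 2 ∧ y.k = x.k + 1 ∧ (x.k = 1 → x.o = y.o)) ∨
  (x.k = 3 ∧ y.k = 0 ∧ ((x.c = 3 ∧ y.c ≤ 1 ∧ y.i = 0) ∨ (x.c ≤ 2 ∧ y.c = x.c ∧ y.i = x.i + 1) ∨
    (x.c = 0 ∧ x.i + 1 = n ∧ y.c = 4) ∨ (x.c = 1 ∧ x.i + 1 = n ∧ y.c = 2 ∧ y.i = 0) ∨
    (x.c = 2 ∧ x.i + 1 = φ.length ∧ y.c = 4)))

/-- the graph -/
def gr : SimpleGraph Vtx where
  Adj x y := Valid n φ x ∧ Valid n φ y ∧ (Stp n φ x y ∨ Stp n φ y x ∨ Conf φ x y)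
  symm := ⟨by
    rintro x y ⟨hx, hy, h⟩
    refine ⟨hy, hx, ?_⟩
    rcases h with h | h | ⟨h1, h2, h3, h4⟩
    · exact Or.inr (Or.inl h)
    · exact Or.inl h
    · exact Or.inr (Or.inr ⟨h2, h1, h3.symm, h4.symm⟩)⟩
  loopless := ⟨by
    rintro x ⟨-, -, h⟩
    rcases h with h | h | ⟨-, -, -, h⟩
    · unfold Stp at h; omega
    · unfold Stp at h; omega
    · exact h rfl⟩

/-- special vertex `u` -/
def uu : Vtx := ⟨3, 0, 0, 3⟩
/-- special vertex `v` -/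
def vv : Vtx := ⟨4, 0, 0, 0⟩

variable {n φ}

lemma gr_adj {x y : Vtx} : (gr n φ).Adj x y ↔
    Valid n φ x ∧ Valid n φ y ∧ (Stp n φ x y ∨ Stp n φ y x ∨ Conf φ x y) := Iff.rfl

lemma valid_left {x y : Vtx} (h : (gr n φ).Adj x y) : Valid n φ x := h.1
lemma valid_right {x y : Vtx} (h : (gr n φ).Adj x y) : Valid n φ y := h.2.1

lemma act_k {x : Vtx} (h : Act φ x) : x.c ≤ 2 ∧ (x.k = 1 ∨ x.k = 2) := by
  refine ⟨h.1, ?_⟩
  have := h.2
  split_ifs at this <;> omega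

lemma act_ne_v {x : Vtx} (h : Act φ x) : x ≠ vv := by
  rintro rfl
  have := (act_k h).1
  simp [vv] at this

/-- neighbours of `u` -/
lemma nbr_u {y : Vtx} (h : (gr n φ).Adj uu y) : y.c ≤ 1 ∧ y.i = 0 ∧ y.o = 0 ∧ y.k = 0 := by
  obtain ⟨-, hy, h⟩ := h
  rcases h with h | h | ⟨h, -⟩
  · simp only [Stp, uu, Valid] at h hy
    omega
  · simp only [Stp, uu, Valid] at h hy
    omega
  · have := (act_k h).1
    simp [uu] at this

/-- neighbours of an entrance -/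
lemma nbr_ent {x y : Vtx} (hk : x.k = 0) (h : (gr n φ).Adj x y) :
    (y.c = x.c ∧ y.i = x.i ∧ y.k = 1) ∨ Stp n φ y x := by
  obtain ⟨hx, hy, h⟩ := h
  rcases h with h | h | ⟨h, -⟩
  · left
    simp only [Stp] at h
    omega
  · exact Or.inr h
  · have := (act_k h).2
    omega

/-- the predecessor of an entrance is unique -/
lemma pred_unique {x y z : Vtx} (hc : x.c ≤ 2) (hk : x.k = 0) (hy : Valid n φ y)
    (hz : Valid n φ z) (h1 : Stp n φ y x) (h2 : Stp n φ z x) : y = z := by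
  simp only [Stp, Valid] at h1 h2 hy hz
  apply Vtx.ext <;> omega

lemma nbr_first {x y : Vtx} (hc : x.c ≤ 2) (hk : x.k = 1) (h : (gr n φ).Adj x y) :
    y = ⟨x.c, x.i, 0, 0⟩ ∨ y = ⟨x.c, x.i, x.o, 2⟩ ∨ Conf φ x y := by
  obtain ⟨hx, hy, h⟩ := h
  rcases h with h | h | h
  · right; left
    simp only [Stp, Valid] at h hy
    apply Vtx.ext <;> simp only <;> omega
  · left
    simp only [Stp, Valid] at h hy
    apply Vtx.ext <;> simp only <;> omega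
  · exact Or.inr (Or.inr h)

lemma nbr_second {x y : Vtx} (hc : x.c ≤ 2) (hk : x.k = 2) (h : (gr n φ).Adj x y) :
    y = ⟨x.c, x.i, x.o, 1⟩ ∨ y = ⟨x.c, x.i, 0, 3⟩ ∨ Conf φ x y := by
  obtain ⟨hx, hy, h⟩ := h
  rcases h with h | h | h
  · right; left
    simp only [Stp, Valid] at h hy
    apply Vtx.ext <;> simp only <;> omega
  · left
    simp only [Stp, Valid] at h hy
    apply Vtx.ext <;> simp only <;> omega
  · exact Or.inr (Or.inr h)

lemma nbr_exit {x y : Vtx} (hk : x.k = 3) (h : (gr n φ).Adj x y) :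
    (y.c = x.c ∧ y.i = x.i ∧ y.k = 2) ∨ Stp n φ x y := by
  obtain ⟨hx, hy, h⟩ := h
  rcases h with h | h | ⟨h, -⟩
  · exact Or.inr h
  · left
    simp only [Stp, Valid] at h hx hy
    omega
  · have := (act_k h).2
    omega

/-- a first vertex is adjacent to its entrance -/
lemma first_adj_ent {c i o : ℕ} (hc : c ≤ 2) (h1 : Valid n φ ⟨c, i, o, 1⟩)
    (h2 : Valid n φ ⟨c, i, 0, 0⟩) : (gr n φ).Adj ⟨c, i, 0, 0⟩ ⟨c, i, o, 1⟩ :=
  ⟨h2, h1, Or.inl (Or.inl ⟨rfl, rfl, hc, rfl, by simp⟩)⟩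

end Pool.Agent.MP_08b96b_lc
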