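import Pool.Agent.MP_08b96b_lc.Defs

/-!
Holes as induced copies of cycle graphs, perfect graphs, and position functions along a hole.
-/

set_option autoImplicit false

namespace Pool.Agent.MP_08b96b_lc

open SimpleGraph

/-- A finite bipartite graph is perfect. -/
theorem isPerfect_of_colorable {V : Type} [Finite V] {G : SimpleGraph V} (h : G.Colorable 2) :
    IsPerfect G := by
  intro s
  classical
  have hcol : (G.induce s).Colorable 2 := by
    obtain ⟨C⟩ := h
    exact ⟨C.comp (Embedding.induce s).toHom⟩
  have hle : ((G.induce s).cliqueNum : ℕ∞) ≤ (G.induce s).chromaticNumber := by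
    obtain ⟨t, ht⟩ := (G.induce s).exists_isNClique_cliqueNum
    rw [← ht.card_eq]
    exact ht.isClique.card_le_chromaticNumber
  apply le_antisymm _ hle
  by_cases hE : ∃ x y, (G.induce s).Adj x y
  · obtain ⟨x, y, hxy⟩ := hE
    have h2 : 2 ≤ (G.induce s).cliqueNum := by
      have hc : (G.induce s).IsClique (({x, y} : Finset s) : Set s) := by
        intro a ha b hb hab
        simp only [Finset.coe_insert, Finset.coe_singleton, Set.mem_insert_iff,
          Set.mem_singleton_iff] at ha hb
        rcases ha with rfl | rfl <;> rcases hb with rfl | rfl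
        · exact absurd rfl hab
        · exact hxy
        · exact hxy.symm
        · exact absurd rfl hab
      have := hc.card_le_cliqueNum
      rwa [Finset.card_pair hxy.ne] at this
    calc (G.induce s).chromaticNumber ≤ 2 := hcol.chromaticNumber_le
      _ ≤ ((G.induce s).cliqueNum : ℕ∞) := by exact_mod_cast h2
  · push Not at hE
    by_cases hs : Nonempty s
    · obtain ⟨x⟩ := hs
      have h1 : 1 ≤ (G.induce s).cliqueNum := by
        have hc : (G.induce s).IsClique (({x} : Finset s) : Set s) := by
          simp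
        simpa using hc.card_le_cliqueNum
      have hc1 : (G.induce s).Colorable 1 := by
        refine ⟨Coloring.mk (fun _ => 0) ?_⟩
        intro a b hab
        exact absurd hab (hE a b)
      calc (G.induce s).chromaticNumber ≤ 1 := hc1.chromaticNumber_le
        _ ≤ ((G.induce s).cliqueNum : ℕ∞) := by exact_mod_cast h1
    · have hc0 : (G.induce s).Colorable 0 := by
        refine ⟨Coloring.mk (fun a => absurd ⟨a⟩ hs) ?_⟩
        intro a
        exact absurd ⟨a⟩ hs
      calc (G.induce s).chromaticNumber ≤ 0 := hc0.chromaticNumber_le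
        _ ≤ ((G.induce s).cliqueNum : ℕ∞) := bot_le

/-- positions along an induced cycle of length `k`: `P 0, P 1, …, P k = P 0` -/
structure CycPos {V : Type} (G : SimpleGraph V) (k : ℕ) (P : ℕ → V) : Prop where
  four : 4 ≤ k
  adj : ∀ i j, i < j → j ≤ k → (G.Adj (P i) (P j) ↔ j = i + 1 ∨ j + 1 = i + k)
  inj : ∀ i j, i < j → j < k → P i ≠ P j
  per : P k = P 0

lemma mod_small {a k : ℕ} (h : a < 2 * k) : a % k = if a < k then a else a - k := by
  split_ifs with h1
  · exact Nat.mod_eq_of_lt h1
  · rw [Nat.mod_eq_sub_mod (by omega), Nat.mod_eq_of_lt (by omega)]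

lemma fin_sub_val {k : ℕ} (a b : Fin k) :
    (a - b).val = if b.val ≤ a.val then a.val - b.val else k + a.val - b.val := by
  have ha := a.isLt
  have hb := b.isLt
  have : (a - b).val = ((k - b.val) + a.val) % k := by
    cases k with
    | zero => exact absurd ha (by omega)
    | succ n => rw [Fin.sub_def]
  rw [this, mod_small (by omega)]
  split_ifs <;> omega

lemma OnCommonHole.pos {V : Type} {G : SimpleGraph V} {u v : V} (h : OnCommonHole G u v)
    (huv : u ≠ v) : ∃ (k : ℕ) (P : ℕ → V) (q : ℕ), CycPos G k P ∧ P 0 = u ∧ 0 < q ∧ q < k ∧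
      P q = v := by
  obtain ⟨k, hk, φ, ⟨x, hx⟩, ⟨y, hy⟩⟩ := h
  have hkpos : 0 < k := by omega
  let P : ℕ → V := fun i => φ ⟨(x.val + i) % k, Nat.mod_lt _ hkpos⟩
  have hxl := x.isLt
  have hyl := y.isLt
  have hP0 : P 0 = u := by
    simp only [P, add_zero]
    rw [← hx]
    congr 1
    exact Fin.ext (Nat.mod_eq_of_lt hxl)
  refine ⟨k, P, if x.val ≤ y.val then y.val - x.val else k + y.val - x.val, ⟨hk, ?_, ?_, ?_⟩,
    hP0, ?_, ?_, ?_⟩
  · intro i j hij hjk
    simp only [P]
    rw [φ.map_adj_iff, cycleGraph_adj', fin_sub_val, fin_sub_val]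
    simp only
    rw [mod_small (a := x.val + i) (k := k) (by omega), mod_small (a := x.val + j) (k := k)
      (by omega)]
    split_ifs <;> omega
  · intro i j hij hjk
    simp only [P]
    intro h
    have := φ.injective h
    rw [Fin.mk.injEq, mod_small (a := x.val + i) (k := k) (by omega),
      mod_small (a := x.val + j) (k := k) (by omega)] at this
    split_ifs at this <;> omega
  · simp only [P]
    congr 2
    simp
  · have hne : x.val ≠ y.val := by
      intro h
      apply huv
      rw [← hx, ← hy, Fin.ext h]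
    split_ifs <;> omega
  · split_ifs <;> omega
  · simp only [P]
    rw [← hy]
    congr 1
    apply Fin.ext
    simp only
    split_ifs with h1
    · rw [mod_small (by omega)]
      split_ifs <;> omega
    · rw [mod_small (by omega)]
      split_ifs <;> omega

lemma CycPos.onCommonHole {V : Type} {G : SimpleGraph V} {k : ℕ} {P : ℕ → V} (h : CycPos G k P)
    {i j : ℕ} (hi : i < k) (hj : j < k) : OnCommonHole G (P i) (P j) := by
  have hinj : ∀ a b : Fin k, P a.val = P b.val → a = b := by
    intro a b hab
    rcases lt_trichotomy a.val b.val with h1 | h1 | h1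
    · exact absurd hab (h.inj _ _ h1 b.isLt)
    · exact Fin.ext h1
    · exact absurd hab.symm (h.inj _ _ h1 a.isLt)
  have hadj : ∀ a b : Fin k, G.Adj (P a.val) (P b.val) ↔ (cycleGraph k).Adj a b := by
    intro a b
    rw [cycleGraph_adj', fin_sub_val, fin_sub_val]
    have ha := a.isLt
    have hb := b.isLt
    have h4 := h.four
    rcases lt_trichotomy a.val b.val with h1 | h1 | h1
    · rw [h.adj _ _ h1 (by omega)]
      split_ifs <;> omega
    · have : a = b := Fin.ext h1
      subst this
      simp
    · rw [G.adj_comm, h.adj _ _ h1 (by omega)]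
      split_ifs <;> omega
  exact ⟨k, h.four, ⟨⟨fun a => P a.val, fun a b hab => hinj a b hab⟩, fun {a b} => hadj a b⟩,
    ⟨⟨i, hi⟩, rfl⟩, ⟨⟨j, hj⟩, rfl⟩⟩

/-- reversal -/
lemma CycPos.reverse {V : Type} {G : SimpleGraph V} {k : ℕ} {P : ℕ → V} (h : CycPos G k P) :
    CycPos G k (fun i => P (k - i)) := by
  have h4 := h.four
  refine ⟨h4, ?_, ?_, ?_⟩
  · intro i j hij hjk
    rw [G.adj_comm, h.adj (k - j) (k - i) (by omega) (by omega)]
    omega
  · intro i j hij hjk hEq
    rcases Nat.eq_zero_or_pos i with h0 | h0
    · subst h0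
      simp only [Nat.sub_zero, h.per] at hEq
      exact h.inj 0 (k - j) (by omega) (by omega) hEq
    · exact h.inj (k - j) (k - i) (by omega) (by omega) hEq.symm
  · simp only [Nat.sub_self, Nat.sub_zero]
    exact h.per.symm

end Pool.Agent.MP_08b96b_lc
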