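import Pool.Agent.MP_08b96b_lc.Hole
import Pool.Agent.Lib.helper60.NPLib

/-!
Deciding whether two vertices lie on a common hole is a problem in NP.
-/

set_option autoImplicit false

namespace Pool.Agent.MP_08b96b_lc

open SimpleGraph Lib.helper60

/-! ### leading ones -/

/-- step of the counter of leading ones -/
def lstep (s : Bool × ℕ) (b : Bool) : Bool × ℕ :=
  bif s.1 && b then (true, s.2 + 1) else (false, s.2)

/-- number of leading ones -/
def lead (w : List Bool) : ℕ := (w.foldl lstep (true, 0)).2

lemma lead_aux_false (w : List Bool) : ∀ n, w.foldl lstep (false, n) = (false, n) := by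
  induction w with
  | nil => intro n; rfl
  | cons b w ih => intro n; simp [lstep, ih]

lemma lead_aux (k : ℕ) (w : List Bool) : ∀ n,
    (List.replicate k true ++ false :: w).foldl lstep (true, n) = (false, n + k) := by
  induction k with
  | zero => intro n; simp [lstep, lead_aux_false]
  | succ k ih =>
    intro n
    have h : lstep (true, n) true = (true, n + 1) := by simp [lstep]
    rw [List.replicate_succ, List.cons_append, List.foldl_cons, h, ih]
    simp only [Prod.mk.injEq, true_and]
    omega

lemma lead_replicate (k : ℕ) (w : List Bool) : lead (List.replicate k true ++ false :: w) = k := by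
  unfold lead
  rw [lead_aux]
  simp

lemma drop_replicate' (k : ℕ) (w : List Bool) :
    (List.replicate k true ++ false :: w).drop (k + 1) = w := by
  have h : (List.replicate k true ++ false :: w) = (List.replicate k true ++ [false]) ++ w := by simp
  rw [h]
  exact List.drop_left' (by simp)

theorem PT_lead {α : Type} [DEnc α] {f : α → List Bool} (hf : PT f) : PT (fun a => lead (f a)) := by
  unfold lead
  have hs : PT (fun z : α × (Bool × ℕ) × Bool => lstep z.2.1 z.2.2) := by
    unfold lstep
    exact PT.cond (PT.band PT.snd.p1.p1 PT.snd.p2) (PT.pair (PT.const true) (PT.nsucc PT.snd.p1.p2))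
      (PT.pair (PT.const false) PT.snd.p1.p2)
  have h := PT.foldl_lin (init := fun _ : α => ((true, 0) : Bool × ℕ)) hf (PT.const _) hs 5 (by
    rintro x ⟨s, n⟩ b
    have h1 := tsize_pos s
    have e1 : tsize true = 3 := rfl
    have e2 : tsize false = 1 := rfl
    unfold lstep
    simp only
    cases (s && b)
    · simp only [cond_false, tsize_pair, tsize_nat, e2]
      omega
    · simp only [cond_true, tsize_pair, tsize_nat, e1]
      omega)
  exact h.p2

/-! ### lists of naturals -/

/-- step of the parser of unary naturals -/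
def nstep (s : ℕ × List ℕ) (b : Bool) : ℕ × List ℕ :=
  bif b then (s.1 + 1, s.2) else (0, s.1 :: s.2)

/-- parser of unary naturals -/
def nats (w : List Bool) : List ℕ := (w.foldl nstep (0, [])).2.reverse

/-- unary naturals -/
def encNats (l : List ℕ) : List Bool := l.flatMap (fun i => List.replicate i true ++ [false])

lemma nats_aux1 (k : ℕ) (w : List Bool) : ∀ (n : ℕ) (l : List ℕ),
    (List.replicate k true ++ false :: w).foldl nstep (n, l) = w.foldl nstep (0, (n + k) :: l) := by
  induction k with
  | zero => intro n l; simp [nstep]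
  | succ k ih =>
    intro n l
    have h : nstep (n, l) true = (n + 1, l) := by simp [nstep]
    rw [List.replicate_succ, List.cons_append, List.foldl_cons, h, ih]
    congr 3
    omega

lemma nats_aux2 (l : List ℕ) : ∀ (l' : List ℕ),
    (encNats l).foldl nstep (0, l') = (0, l.reverse ++ l') := by
  induction l with
  | nil => intro l'; rfl
  | cons a l ih =>
    intro l'
    have h : encNats (a :: l) = List.replicate a true ++ false :: encNats l := by
      simp [encNats]
    rw [h, nats_aux1, ih]
    simp

lemma nats_enc (l : List ℕ) : nats (encNats l) = l := by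
  unfold nats
  rw [nats_aux2]
  simp

lemma encNats_length (l : List ℕ) (N : ℕ) (h : ∀ i ∈ l, i < N) :
    (encNats l).length ≤ l.length * N := by
  induction l with
  | nil => simp [encNats]
  | cons a l ih =>
    have h1 := ih (fun i hi => h i (List.mem_cons_of_mem _ hi))
    have h2 := h a List.mem_cons_self
    have h3 : encNats (a :: l) = List.replicate a true ++ false :: encNats l := by
      simp [encNats]
    rw [h3]
    simp only [List.length_append, List.length_replicate, List.length_cons]
    have : (l.length + 1) * N = l.length * N + N := by ring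
    omega

theorem PT_nats : PT nats := by
  unfold nats
  have hs : PT (fun z : List Bool × (ℕ × List ℕ) × Bool => nstep z.2.1 z.2.2) := by
    unfold nstep
    exact PT.cond PT.snd.p2 (PT.pair (PT.nsucc PT.snd.p1.p1) PT.snd.p1.p2)
      (PT.pair (PT.const 0) (PT.cons PT.snd.p1.p1 PT.snd.p1.p2))
  have h := PT.foldl_lin (init := fun _ : List Bool => ((0, []) : ℕ × List ℕ)) PT.id (PT.const _)
    hs 5 (by
      rintro x ⟨n, l⟩ b
      unfold nstep
      cases b
      · simp only [cond_false, tsize_pair, tsize_nat, tsize_cons]
        omega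
      · simp only [cond_true, tsize_pair, tsize_nat]
        omega)
  exact PT.reverse h.p2

/-! ### the verifier -/

/-- check that the list `l` of naturals is a chordless cycle through `u` and `v` in the graph on
`n` vertices whose adjacency matrix is the first part of `r` -/
def chk (n : ℕ) (r : List Bool) (u v : ℕ) (l : List ℕ) : Bool :=
  decide (4 ≤ l.length) && (l.all (fun i => decide (i < n)) && (decide (l.getD 0 0 = u) &&
    (l.any (fun i => decide (i = v)) &&
      (List.range l.length).all (fun i => (List.range l.length).all (fun j =>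
        !decide (i < j) || (decide (¬ l.getD i 0 = l.getD j 0) &&
          decide (r.getD (n * l.getD i 0 + l.getD j 0) false =
            decide (j = i + 1 ∨ j + 1 = i + l.length))))))))

theorem PT_chk {α : Type} [DEnc α] {n u v : α → ℕ} {r : α → List Bool} {l : α → List ℕ}
    (hn : PT n) (hr : PT r) (hu : PT u) (hv : PT v) (hl : PT l) :
    PT (fun a => chk (n a) (r a) (u a) (v a) (l a)) := by
  unfold chk
  refine PT.band (PT.nle (PT.const 4) (PT.length hl)) (PT.band ?_ (PT.band ?_ (PT.band ?_ ?_)))
  · exact PT.all (p := fun z : α × ℕ => decide (z.2 < n z.1)) hl (PT.nlt PT.snd (hn.comp PT.fst))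
  · exact PT.neq (PT.getD hl (PT.const 0) (PT.const 0)) hu
  · exact PT.any (p := fun z : α × ℕ => decide (z.2 = v z.1)) hl (PT.neq PT.snd (hv.comp PT.fst))
  · refine PT.all (p := fun z : α × ℕ => (List.range (l z.1).length).all (fun j =>
        !decide (z.2 < j) || (decide (¬ (l z.1).getD z.2 0 = (l z.1).getD j 0) &&
          decide ((r z.1).getD (n z.1 * (l z.1).getD z.2 0 + (l z.1).getD j 0) false =
            decide (j = z.2 + 1 ∨ j + 1 = z.2 + (l z.1).length))))) (PT.range (PT.length hl)) ?_
    refine PT.all (p := fun y : (α × ℕ) × ℕ =>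
        !decide (y.1.2 < y.2) || (decide (¬ (l y.1.1).getD y.1.2 0 = (l y.1.1).getD y.2 0) &&
          decide ((r y.1.1).getD (n y.1.1 * (l y.1.1).getD y.1.2 0 + (l y.1.1).getD y.2 0) false =
            decide (y.2 = y.1.2 + 1 ∨ y.2 + 1 = y.1.2 + (l y.1.1).length))))
      (PT.range (PT.length (hl.comp PT.fst))) ?_
    have a : PT (fun y : (α × ℕ) × ℕ => y.1.1) := PT.fst.p1
    have i : PT (fun y : (α × ℕ) × ℕ => y.1.2) := PT.fst.p2
    have j : PT (fun y : (α × ℕ) × ℕ => y.2) := PT.snd
    have hli := PT.getD (hl.comp a) i (PT.const 0)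
    have hlj := PT.getD (hl.comp a) j (PT.const 0)
    refine PT.bor (PT.bnot (PT.nlt i j)) (PT.band (PT.dnot (PT.neq hli hlj)) (PT.beq ?_ ?_))
    · exact PT.getD (hr.comp a) (PT.nadd (PT.nmul (hn.comp a) hli) hlj) (PT.const false)
    · exact PT.dor (PT.neq j (PT.nsucc i)) (PT.neq (PT.nsucc j) (PT.nadd i (PT.length (hl.comp a))))

/-- the verifier on raw strings -/
def verif (p : List Bool × List Bool) : Bool :=
  chk (lead p.1) (p.1.drop (lead p.1 + 1))
    (lead ((p.1.drop (lead p.1 + 1)).drop (lead p.1 * lead p.1)))
    (lead (((p.1.drop (lead p.1 + 1)).drop (lead p.1 * lead p.1)).drop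
      (lead ((p.1.drop (lead p.1 + 1)).drop (lead p.1 * lead p.1)) + 1)))
    (nats p.2)

theorem PT_verif : PT verif := by
  unfold verif
  have w : PT (fun p : List Bool × List Bool => p.1) := PT.fst
  have n := PT_lead w
  have r := PT.drop (PT.nsucc n) w
  have r2 := PT.drop (PT.nmul n n) r
  have u := PT_lead r2
  exact PT_chk n r u (PT_lead (PT.drop (PT.nsucc u) r2)) (PT_nats.comp PT.snd)

/-! ### correctness -/

lemma matrix_eq {n : ℕ} (f : Fin n → Fin n → Bool) :
    (List.ofFn fun i : Fin n => List.ofFn fun j : Fin n => f i j).flatten =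
      List.ofFn (fun t : Fin (n * n) => f t.divNat t.modNat) := by
  rw [List.ofFn_mul]
  congr 1
  congr 1
  funext i
  congr 1
  funext j
  have hn : 0 < n := lt_of_le_of_lt (Nat.zero_le _) i.isLt
  congr 1
  · apply Fin.ext
    simp only [Fin.coe_divNat]
    rw [mul_comm, Nat.mul_add_div hn, Nat.div_eq_of_lt j.isLt, add_zero]
  · apply Fin.ext
    simp only [Fin.coe_modNat]
    rw [mul_comm, Nat.mul_add_mod, Nat.mod_eq_of_lt j.isLt]

/-- the adjacency matrix of an input -/
def HoleInput.matrix (I : HoleInput) : List Bool :=
  haveI := I.decAdj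
  (List.ofFn fun i : Fin I.n => List.ofFn fun j : Fin I.n => decide (I.G.Adj i j)).flatten

lemma HoleInput.encode_eq (I : HoleInput) : I.encode = List.replicate I.n true ++ false ::
      (I.matrix ++ (List.replicate I.u.val true ++ false :: (List.replicate I.v.val true ++
        [false]))) := rfl

lemma HoleInput.matrix_length (I : HoleInput) : I.matrix.length = I.n * I.n := by
  unfold HoleInput.matrix
  rw [matrix_eq]
  simp

lemma HoleInput.matrix_getD (I : HoleInput) (i j : Fin I.n) (w : List Bool) :
    ((I.matrix ++ w).getD (I.n * i.val + j.val) false = true) ↔ I.G.Adj i j := by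
  let iD : DecidableRel I.G.Adj := I.decAdj
  have hlt : I.n * i.val + j.val < I.n * I.n := by
    have h1 := i.isLt
    have h2 := j.isLt
    nlinarith
  have h1 : (I.matrix ++ w).getD (I.n * i.val + j.val) false =
      I.matrix.getD (I.n * i.val + j.val) false := by
    rw [List.getD_append _ _ _ _ (by rw [I.matrix_length]; exact hlt)]
  rw [h1]
  have hn : 0 < I.n := lt_of_le_of_lt (Nat.zero_le _) i.isLt
  have h2 : I.matrix.getD (I.n * i.val + j.val) false = decide (I.G.Adj i j) := by
    unfold HoleInput.matrix
    rw [matrix_eq, List.getD_eq_getElem _ _ (by simpa using hlt), List.getElem_ofFn]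
    have e1 : (⟨I.n * i.val + j.val, hlt⟩ : Fin (I.n * I.n)).divNat = i := by
      apply Fin.ext
      simp only [Fin.coe_divNat]
      rw [Nat.mul_add_div hn, Nat.div_eq_of_lt j.isLt, add_zero]
    have e2 : (⟨I.n * i.val + j.val, hlt⟩ : Fin (I.n * I.n)).modNat = j := by
      apply Fin.ext
      simp only [Fin.coe_modNat]
      rw [Nat.mul_add_mod, Nat.mod_eq_of_lt j.isLt]
    rw [e1, e2]
  rw [h2, decide_eq_true_iff]

lemma verif_encode (I : HoleInput) (c : List Bool) : verif (I.encode, c) =
    chk I.n (I.matrix ++ (List.replicate I.u.val true ++ false :: (List.replicate I.v.val true ++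
        [false]))) I.u.val I.v.val (nats c) := by
  unfold verif
  have h1 : lead I.encode = I.n := by rw [I.encode_eq, lead_replicate]
  have h2 : I.encode.drop (I.n + 1) = I.matrix ++ (List.replicate I.u.val true ++ false ::
      (List.replicate I.v.val true ++ [false])) := by rw [I.encode_eq, drop_replicate']
  have h3 : (I.matrix ++ (List.replicate I.u.val true ++ false ::
      (List.replicate I.v.val true ++ [false]))).drop (I.n * I.n) =
      List.replicate I.u.val true ++ false :: (List.replicate I.v.val true ++ [false]) :=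
    List.drop_left' I.matrix_length
  simp only [h1, h2, h3, lead_replicate, drop_replicate']

lemma chk_iff {n : ℕ} {r : List Bool} {u v : ℕ} {l : List ℕ} : chk n r u v l = true ↔
    4 ≤ l.length ∧ (∀ i ∈ l, i < n) ∧ l.getD 0 0 = u ∧ v ∈ l ∧
      ∀ i < l.length, ∀ j < l.length, i < j → l.getD i 0 ≠ l.getD j 0 ∧
        (r.getD (n * l.getD i 0 + l.getD j 0) false = true ↔
          (j = i + 1 ∨ j + 1 = i + l.length)) := by
  unfold chk
  simp only [Bool.and_eq_true, decide_eq_true_iff, List.all_eq_true, List.any_eq_true,
    List.mem_range, Bool.or_eq_true, Bool.not_eq_true', decide_eq_false_iff_not]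
  constructor
  · rintro ⟨h1, h2, h3, ⟨x, hx, rfl⟩, h4⟩
    refine ⟨h1, h2, h3, hx, ?_⟩
    intro i hi j hj hij
    rcases h4 i hi j hj with h | h
    · exact absurd hij h
    · refine ⟨h.1, ?_⟩
      rw [h.2, decide_eq_true_iff]
  · rintro ⟨h1, h2, h3, h4, h5⟩
    refine ⟨h1, h2, h3, ⟨v, h4, rfl⟩, ?_⟩
    intro i hi j hj
    by_cases hij : i < j
    · right
      obtain ⟨h6, h7⟩ := h5 i hi j hj hij
      refine ⟨h6, ?_⟩
      rw [Bool.eq_iff_iff, decide_eq_true_iff]
      exact h7
    · left
      exact hij

theorem verif_sound (I : HoleInput) (c : List Bool) (h : verif (I.encode, c) = true) :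
    OnCommonHole I.G I.u I.v := by
  rw [verif_encode, chk_iff] at h
  obtain ⟨h1, h2, h3, h4, h5⟩ := h
  set l := nats c with hl
  have hpos : 0 < l.length := by omega
  have hmem : ∀ i, i < l.length → l.getD i 0 < I.n := by
    intro i hi
    rw [List.getD_eq_getElem _ _ hi]
    exact h2 _ (List.getElem_mem hi)
  let P : ℕ → Fin I.n := fun i => ⟨l.getD (i % l.length) 0, hmem _ (Nat.mod_lt _ hpos)⟩
  have hPv : ∀ i, i < l.length → (P i).val = l.getD i 0 := by
    intro i hi
    simp only [P]
    rw [Nat.mod_eq_of_lt hi]
  have hP : CycPos I.G l.length P := by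
    refine ⟨h1, ?_, ?_, ?_⟩
    · intro i j hij hjk
      rcases Nat.lt_or_ge j l.length with hj | hj
      · have h6 := (h5 i (by omega) j hj hij).2
        rw [← h6, ← I.matrix_getD (P i) (P j), hPv i (by omega), hPv j hj]
      · have hjk' : j = l.length := by omega
        subst hjk'
        have hk0 : P l.length = P 0 := by simp [P]
        rw [hk0]
        rcases Nat.eq_zero_or_pos i with h0 | h0
        · subst h0
          constructor
          · intro h; exact absurd h (I.G.irrefl)
          · intro h; omega
        · have h6 := (h5 0 hpos i hij h0).2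
          rw [I.G.adj_comm, ← I.matrix_getD (P 0) (P i), hPv i (by omega), hPv 0 hpos, h6]
          omega
    · intro i j hij hj hEq
      have h6 := (h5 i (by omega) j hj hij).1
      apply h6
      rw [← hPv i (by omega), ← hPv j hj, hEq]
    · simp [P]
  obtain ⟨q, hq, hqv⟩ := List.mem_iff_getElem.1 h4
  have hu : P 0 = I.u := Fin.ext (by rw [hPv 0 hpos]; exact h3)
  have hv : P q = I.v := Fin.ext (by
    rw [hPv q hq, List.getD_eq_getElem _ _ hq]
    exact hqv)
  rw [← hu, ← hv]
  exact hP.onCommonHole hpos hq

theorem verif_complete (I : HoleInput) (huv : I.u ≠ I.v) (h : OnCommonHole I.G I.u I.v) :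
    ∃ c : List Bool, c.length ≤ I.n * I.n ∧ verif (I.encode, c) = true := by
  obtain ⟨k, P, q, hP, h0, hq0, hq, hqv⟩ := h.pos huv
  let l : List ℕ := (List.range k).map (fun i => (P i).val)
  have hlen : l.length = k := by simp [l]
  have hget : ∀ i, i < k → l.getD i 0 = (P i).val := by
    intro i hi
    rw [List.getD_eq_getElem _ _ (by omega)]
    simp [l]
  have hkn : k ≤ I.n := by
    have hinj : Function.Injective (fun i : Fin k => P i.val) := by
      intro a b hab
      rcases lt_trichotomy a.val b.val with h1 | h1 | h1
      · exact absurd hab (hP.inj _ _ h1 b.isLt)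
      · exact Fin.ext h1
      · exact absurd hab.symm (hP.inj _ _ h1 a.isLt)
    simpa using Fintype.card_le_of_injective _ hinj
  refine ⟨encNats l, ?_, ?_⟩
  · refine (encNats_length l I.n ?_).trans ?_
    · intro i hi
      simp only [l, List.mem_map] at hi
      obtain ⟨x, _, rfl⟩ := hi
      exact (P x).isLt
    · rw [hlen]
      exact Nat.mul_le_mul_right _ hkn
  · rw [verif_encode, chk_iff, nats_enc, hlen]
    have h4 := hP.four
    refine ⟨h4, ?_, ?_, ?_, ?_⟩
    · intro i hi
      simp only [l, List.mem_map] at hi
      obtain ⟨x, _, rfl⟩ := hi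
      exact (P x).isLt
    · rw [hget 0 (by omega), h0]
    · simp only [l, List.mem_map, List.mem_range]
      exact ⟨q, hq, by rw [hqv]⟩
    · intro i hi j hj hij
      rw [hget i hi, hget j hj]
      refine ⟨fun h => hP.inj i j hij hj (Fin.ext h), ?_⟩
      rw [I.matrix_getD (P i) (P j)]
      exact hP.adj i j hij hj.le

end Pool.Agent.MP_08b96b_lc
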