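import Pool.Agent.MP_08b96b_lc.Graph

/-!
A satisfying assignment yields a hole through the two special vertices.
-/

set_option autoImplicit false

namespace Pool.Agent.MP_08b96b_lc

open SimpleGraph Lib.helper60

section

variable (n m : ℕ) (val : ℕ → Bool) (ch : ℕ → ℕ)

/-- option chosen in a variable block -/
def opt (i : ℕ) : ℕ := if val i = true then 1 else 0

/-- vertex of a block at level `r`, with chosen option `o` -/
def blk (c i r o : ℕ) : Vtx := ⟨c, i, if r = 1 ∨ r = 2 then o else 0, r⟩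

/-- length of the hole -/
def len : ℕ := 8 * n + 4 * m + 2

/-- the vertices in cyclic order -/
def F (p : ℕ) : Vtx :=
  if p = 0 then uu
  else if p ≤ 4 * n then blk 0 ((p - 1) / 4) ((p - 1) % 4) (opt val ((p - 1) / 4))
  else if p = 4 * n + 1 then vv
  else if len n m - p = 0 then uu
  else if len n m - p ≤ 4 * n then
    blk 1 ((len n m - p - 1) / 4) ((len n m - p - 1) % 4) (opt val ((len n m - p - 1) / 4))
  else blk 2 ((len n m - p - 4 * n - 1) / 4) ((len n m - p - 4 * n - 1) % 4)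
    (ch ((len n m - p - 4 * n - 1) / 4))

/-- chosen vertices -/
def Sel (x : Vtx) : Prop :=
  x.o = if x.k = 1 ∨ x.k = 2 then (if x.c ≤ 1 then opt val x.i else ch x.i) else 0

/-- position of a chosen vertex -/
def pos (x : Vtx) : ℕ :=
  if x.c = 3 then 0 else if x.c = 4 then 4 * n + 1 else if x.c = 0 then 4 * x.i + x.k + 1
  else if x.c = 1 then len n m - (4 * x.i + x.k + 1) else len n m - (4 * n + 4 * x.i + x.k + 1)

/-- path edges, forgetting options -/
def Core (x y : Vtx) : Prop :=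
  (x.c = y.c ∧ x.i = y.i ∧ x.c ≤ 2 ∧ y.k = x.k + 1) ∨
  (x.k = 3 ∧ y.k = 0 ∧ ((x.c = 3 ∧ y.c ≤ 1 ∧ y.i = 0) ∨ (x.c ≤ 2 ∧ y.c = x.c ∧ y.i = x.i + 1) ∨
    (x.c = 0 ∧ x.i + 1 = n ∧ y.c = 4) ∨ (x.c = 1 ∧ x.i + 1 = n ∧ y.c = 2 ∧ y.i = 0) ∨
    (x.c = 2 ∧ x.i + 1 = m ∧ y.c = 4)))

/-- consecutive positions -/
def Cons (K a b : ℕ) : Prop :=
  b = a + 1 ∨ a = b + 1 ∨ (a = 0 ∧ b + 1 = K) ∨ (b = 0 ∧ a + 1 = K)

end

variable {n : ℕ} {φ : CNF} {val : ℕ → Bool} {ch : ℕ → ℕ}

/-- range conditions only -/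
def Rng (n m : ℕ) (x : Vtx) : Prop :=
  (x.c = 0 ∧ x.i < n ∧ x.k ≤ 3) ∨ (x.c = 1 ∧ x.i < n ∧ x.k ≤ 3) ∨ (x.c = 2 ∧ x.i < m ∧ x.k ≤ 3) ∨
  (x.c = 3 ∧ x.i = 0 ∧ x.k = 3) ∨ (x.c = 4 ∧ x.i = 0 ∧ x.k = 0)

lemma rng_of_valid {x : Vtx} (h : Valid n φ x) : Rng n φ.length x := by
  rcases h with h | h | h | h
  · rcases Nat.eq_zero_or_pos x.c with h0 | h0
    · left; omega
    · right; left; omega
  · right; right; left; exact ⟨h.1, h.2.1, h.2.2.1⟩
  · right; right; right; left; exact ⟨h.1, h.2.1, h.2.2.2⟩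
  · right; right; right; right; exact ⟨h.1, h.2.1, h.2.2.2⟩

lemma core_iff {m : ℕ} (hn : 1 ≤ n) (hm : 1 ≤ m) {x y : Vtx} (hx : Rng n m x) (hy : Rng n m y) :
    (Core n m x y ∨ Core n m y x) ↔ Cons (len n m) (pos n m x) (pos n m y) := by
  rcases hx with ⟨c1, i1, k1⟩ | ⟨c1, i1, k1⟩ | ⟨c1, i1, k1⟩ | ⟨c1, i1, k1⟩ | ⟨c1, i1, k1⟩ <;>
  rcases hy with ⟨c2, i2, k2⟩ | ⟨c2, i2, k2⟩ | ⟨c2, i2, k2⟩ | ⟨c2, i2, k2⟩ | ⟨c2, i2, k2⟩ <;>
  simp only [Core, Cons, pos, len, c1, c2] <;> simp <;> omega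

lemma stp_iff_core {x y : Vtx} (hx : Sel val ch x) (hy : Sel val ch y) :
    Stp n φ x y ↔ Core n φ.length x y := by
  unfold Stp Core
  constructor
  · rintro (⟨h1, h2, h3, h4, -⟩ | h)
    · exact Or.inl ⟨h1, h2, h3, h4⟩
    · exact Or.inr h
  · rintro (⟨h1, h2, h3, h4⟩ | h)
    · refine Or.inl ⟨h1, h2, h3, h4, ?_⟩
      intro hk
      unfold Sel at hx hy
      rw [hx, hy, h1, h2]
      have h5 : y.k = 2 := by omega
      rw [if_pos (Or.inl hk), if_pos (Or.inr h5)]
    · exact Or.inr h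

lemma sel_label {x : Vtx} (hval : ∀ j < φ.length, ch j < (φ.getD j []).length ∧
      val (lit φ j (ch j)).1 = (lit φ j (ch j)).2) (hv : Valid n φ x) (hx : Sel val ch x)
    (ha : Act φ x) : (lab φ x).2 = val (lab φ x).1 := by
  have hk := act_k ha
  unfold Sel at hx
  rw [if_pos hk.2] at hx
  by_cases hc : x.c ≤ 1
  · rw [if_pos hc] at hx
    simp only [lab, if_pos hc, hx, opt]
    cases val x.i <;> simp
  · rw [if_neg hc] at hx
    simp only [lab, if_neg hc, hx]
    refine (hval x.i ?_).2.symm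
    rcases hv with h | h | h | h <;> omega

theorem adj_iff_cons (hn : 1 ≤ n) (hm : 1 ≤ φ.length)
    (hval : ∀ j < φ.length, ch j < (φ.getD j []).length ∧
      val (lit φ j (ch j)).1 = (lit φ j (ch j)).2) {x y : Vtx}
    (hx : Valid n φ x) (hxs : Sel val ch x) (hy : Valid n φ y) (hys : Sel val ch y) :
    (gr n φ).Adj x y ↔ Cons (len n φ.length) (pos n φ.length x) (pos n φ.length y) := by
  rw [← core_iff hn hm (rng_of_valid hx) (rng_of_valid hy), ← stp_iff_core hxs hys,
    ← stp_iff_core hys hxs]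
  constructor
  · rintro ⟨-, -, h | h | h⟩
    · exact Or.inl h
    · exact Or.inr h
    · exfalso
      have h1 := sel_label hval hx hxs h.1
      have h2 := sel_label hval hy hys h.2.1
      apply h.2.2.2
      rw [h1, h2, h.2.2.1]
  · rintro (h | h)
    · exact ⟨hx, hy, Or.inl h⟩
    · exact ⟨hx, hy, Or.inr (Or.inl h)⟩

lemma opt_le (i : ℕ) : opt val i ≤ 1 := by
  unfold opt
  split_ifs <;> omega

lemma blk_valid_var {c i r : ℕ} (hc : c ≤ 1) (hi : i < n) (hr : r ≤ 3) :
    Valid n φ (blk c i r (opt val i)) ∧ Sel val ch (blk c i r (opt val i)) := by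
  have := opt_le (val := val) i
  constructor
  · left
    simp only [blk]
    refine ⟨hc, hi, hr, ?_, ?_⟩
    · split_ifs <;> omega
    · intro h
      rw [if_neg (by omega)]
  · show (if r = 1 ∨ r = 2 then opt val i else 0) =
      if r = 1 ∨ r = 2 then (if c ≤ 1 then opt val i else ch i) else 0
    rw [if_pos hc]

lemma blk_valid_cl (hval : ∀ j < φ.length, ch j < (φ.getD j []).length ∧
      val (lit φ j (ch j)).1 = (lit φ j (ch j)).2) {i r : ℕ} (hi : i < φ.length) (hr : r ≤ 3) :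
    Valid n φ (blk 2 i r (ch i)) ∧ Sel val ch (blk 2 i r (ch i)) := by
  constructor
  · right; left
    simp only [blk, true_and]
    refine ⟨hi, hr, ?_, ?_⟩
    · intro h
      rw [if_neg (by omega)]
    · intro h
      rw [if_pos h]
      exact (hval i hi).1
  · unfold Sel blk
    dsimp only
    split_ifs <;> first | rfl | omega

lemma F_valid (hval : ∀ j < φ.length, ch j < (φ.getD j []).length ∧
      val (lit φ j (ch j)).1 = (lit φ j (ch j)).2) {p : ℕ} (hp : p < len n φ.length) :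
    Valid n φ (F n φ.length val ch p) ∧ Sel val ch (F n φ.length val ch p) ∧
      pos n φ.length (F n φ.length val ch p) = p := by
  have hlen : len n φ.length = 8 * n + 4 * φ.length + 2 := rfl
  unfold F
  split_ifs with h1 h2 h3 h4 h5
  · refine ⟨Or.inr (Or.inr (Or.inl ⟨rfl, rfl, rfl, rfl⟩)), by simp [Sel, uu], ?_⟩
    simp [pos, uu, h1]
  · obtain ⟨a1, a2⟩ := blk_valid_var (n := n) (φ := φ) (val := val) (ch := ch) (c := 0)
      (i := (p - 1) / 4) (r := (p - 1) % 4) (by omega) (by omega) (by omega)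
    refine ⟨a1, a2, ?_⟩
    simp only [pos, blk]
    simp
    omega
  · refine ⟨Or.inr (Or.inr (Or.inr ⟨rfl, rfl, rfl, rfl⟩)), by simp [Sel, vv], ?_⟩
    simp [pos, vv, h3]
  · omega
  · obtain ⟨a1, a2⟩ := blk_valid_var (n := n) (φ := φ) (val := val) (ch := ch) (c := 1)
      (i := (len n φ.length - p - 1) / 4) (r := (len n φ.length - p - 1) % 4)
      (by omega) (by omega) (by omega)
    refine ⟨a1, a2, ?_⟩
    simp only [pos, blk]
    simp
    omega
  · obtain ⟨a1, a2⟩ := blk_valid_cl (n := n) hval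
      (i := (len n φ.length - p - 4 * n - 1) / 4) (r := (len n φ.length - p - 4 * n - 1) % 4)
      (by omega) (by omega)
    refine ⟨a1, a2, ?_⟩
    simp only [pos, blk]
    simp
    omega

/-- `F` with period -/
theorem cycPos_F (hn : 1 ≤ n) (hm : 1 ≤ φ.length)
    (hval : ∀ j < φ.length, ch j < (φ.getD j []).length ∧
      val (lit φ j (ch j)).1 = (lit φ j (ch j)).2) :
    CycPos (gr n φ) (len n φ.length)
      (fun p => if p = len n φ.length then F n φ.length val ch 0 else F n φ.length val ch p) := by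
  have hlen : len n φ.length = 8 * n + 4 * φ.length + 2 := rfl
  refine ⟨by omega, ?_, ?_, ?_⟩
  · intro i j hij hjk
    have hi : i < len n φ.length := by omega
    obtain ⟨a1, a2, a3⟩ := F_valid (n := n) hval hi
    simp only [if_neg (ne_of_lt hi)]
    by_cases hj : j = len n φ.length
    · rw [if_pos hj]
      obtain ⟨b1, b2, b3⟩ := F_valid (n := n) hval (show 0 < len n φ.length by omega)
      rw [adj_iff_cons hn hm hval a1 a2 b1 b2, a3, b3]
      unfold Cons
      omega
    · rw [if_neg hj]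
      obtain ⟨b1, b2, b3⟩ := F_valid (n := n) hval (show j < len n φ.length by omega)
      rw [adj_iff_cons hn hm hval a1 a2 b1 b2, a3, b3]
      unfold Cons
      omega
  · intro i j hij hjk hEq
    simp only [if_neg (ne_of_lt hjk), if_neg (ne_of_lt (hij.trans hjk))] at hEq
    obtain ⟨a1, a2, a3⟩ := F_valid (n := n) hval (hij.trans hjk)
    obtain ⟨b1, b2, b3⟩ := F_valid (n := n) hval hjk
    rw [← hEq, a3] at b3
    omega
  · simp

theorem hole_of_sat (hn : 1 ≤ n) (hm : 1 ≤ φ.length)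
    (hval : ∀ j < φ.length, ch j < (φ.getD j []).length ∧
      val (lit φ j (ch j)).1 = (lit φ j (ch j)).2) :
    OnCommonHole (gr n φ) uu vv := by
  have hlen : len n φ.length = 8 * n + 4 * φ.length + 2 := rfl
  have h := (cycPos_F hn hm hval).onCommonHole (i := 0) (j := 4 * n + 1) (by omega) (by omega)
  have e0 : (if 0 = len n φ.length then F n φ.length val ch 0 else F n φ.length val ch 0) = uu := by
    simp [F]
  have e1 : (if 4 * n + 1 = len n φ.length then F n φ.length val ch 0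
      else F n φ.length val ch (4 * n + 1)) = vv := by
    rw [if_neg (by omega)]
    simp [F]
  simp only [e0, e1] at h
  exact h

end Pool.Agent.MP_08b96b_lc
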