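import Pool.Agent.MP_08b96b_lc.Reduce

/-!
Correctness of the reduction.
-/

set_option autoImplicit false

namespace Pool.Agent.MP_08b96b_lc

open SimpleGraph Lib.helper60

lemma foldl_add (l : List Lit) (s : ℕ) :
    s ≤ l.foldl (fun s l => s + l.1) s ∧ ∀ x ∈ l, s + x.1 ≤ l.foldl (fun s l => s + l.1) s := by
  induction l generalizing s with
  | nil => simp
  | cons a l ih =>
    obtain ⟨h1, h2⟩ := ih (s + a.1)
    simp only [List.foldl_cons, List.mem_cons]
    refine ⟨by omega, ?_⟩
    rintro x (rfl | hx)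
    · exact h1
    · have := h2 x hx
      omega

lemma nvar_pos (φ : CNF) : 1 ≤ nvar φ := (foldl_add _ 1).1

lemma lt_nvar {φ : CNF} {c : List Lit} (hc : c ∈ φ) {l : Lit} (hl : l ∈ c) : l.1 < nvar φ := by
  have := (foldl_add φ.flatten 1).2 l (List.mem_flatten.2 ⟨c, hc, hl⟩)
  unfold nvar
  omega

lemma lit_mem {φ : CNF} {j p : ℕ} (hj : j < φ.length) (hp : p < (φ.getD j []).length) :
    φ.getD j [] ∈ φ ∧ lit φ j p ∈ φ.getD j [] := by
  constructor
  · rw [List.getD_eq_getElem _ _ hj]
    exact List.getElem_mem _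
  · unfold lit
    rw [List.getD_eq_getElem _ _ hp]
    exact List.getElem_mem _

lemma hlit_ext (φ : CNF) : ∀ j p, j < (ext' φ).length → p < ((ext' φ).getD j []).length →
    (lit (ext' φ) j p).1 < nvar φ := by
  intro j p hj hp
  obtain ⟨h1, h2⟩ := lit_mem hj hp
  have h3 : (ext' φ).getD j [] = [(0, true), (0, false)] ∨ (ext' φ).getD j [] ∈ φ := by
    have : (ext' φ).getD j [] ∈ [(0, true), (0, false)] :: φ := h1
    exact List.mem_cons.1 this
  rcases h3 with h3 | h3
  · rw [h3] at h2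
    have h4 := nvar_pos φ
    rcases List.mem_cons.1 h2 with h5 | h5
    · rw [h5]; simp only; omega
    · rw [List.mem_singleton] at h5
      rw [h5]; simp only; omega
  · exact lt_nvar h3 h2

lemma sat_iff (φ : CNF) : Satisfiable φ ↔ ∃ val : ℕ → Bool, ∀ j < (ext' φ).length,
    ∃ p < ((ext' φ).getD j []).length, val (lit (ext' φ) j p).1 = (lit (ext' φ) j p).2 := by
  constructor
  · rintro ⟨val, h⟩
    refine ⟨val, fun j hj => ?_⟩
    have hmem : (ext' φ).getD j [] ∈ ext' φ := by
      rw [List.getD_eq_getElem _ _ hj]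
      exact List.getElem_mem _
    have hex : ∃ l ∈ (ext' φ).getD j [], val l.1 = l.2 := by
      rcases List.mem_cons.1 (show (ext' φ).getD j [] ∈ [(0, true), (0, false)] :: φ from hmem)
        with h3 | h3
      · rw [h3]
        cases hv : val 0
        · exact ⟨(0, false), by simp, hv⟩
        · exact ⟨(0, true), by simp, hv⟩
      · exact h _ h3
    obtain ⟨l, hl, hv⟩ := hex
    obtain ⟨p, hp, hpl⟩ := List.getElem_of_mem hl
    refine ⟨p, hp, ?_⟩
    have : lit (ext' φ) j p = l := by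
      unfold lit
      rw [List.getD_eq_getElem _ _ hp, hpl]
    rw [this]
    exact hv
  · rintro ⟨val, h⟩
    refine ⟨val, fun c hc => ?_⟩
    obtain ⟨j, hj, hjc⟩ := List.getElem_of_mem hc
    have hj' : j + 1 < (ext' φ).length := by
      simp only [ext', List.length_cons]
      omega
    obtain ⟨p, hp, hv⟩ := h (j + 1) hj'
    have e : (ext' φ).getD (j + 1) [] = c := by
      simp only [ext', List.getD_cons_succ]
      rw [List.getD_eq_getElem _ _ hj, hjc]
    obtain ⟨h1, h2⟩ := lit_mem hj' hp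
    rw [e] at h2
    exact ⟨_, h2, hv⟩

/-- holes in a graph pulled back along an injection that hits all non-isolated vertices -/
lemma onCommonHole_comap {V W : Type} (f : W ↪ V) (G : SimpleGraph V)
    (hf : ∀ x y, G.Adj x y → x ∈ Set.range f) (a b : W) :
    OnCommonHole (G.comap f) a b ↔ OnCommonHole G (f a) (f b) := by
  constructor
  · rintro ⟨k, hk, φ, ⟨x, hx⟩, ⟨y, hy⟩⟩
    refine ⟨k, hk, (Embedding.comap f G).comp φ, ⟨x, ?_⟩, ⟨y, ?_⟩⟩
    · simp [hx]
    · simp [hy]
  · rintro ⟨k, hk, φ, ⟨x, hx⟩, ⟨y, hy⟩⟩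
    obtain ⟨n, rfl⟩ : ∃ n, k = n + 2 := ⟨k - 2, by omega⟩
    have hrange : ∀ z, φ z ∈ Set.range f := by
      intro z
      have : (cycleGraph (n + 2)).Adj z (z + 1) := by
        rw [cycleGraph_adj]
        right
        simp
      exact hf _ _ (φ.map_adj_iff.2 this)
    choose g hg using hrange
    refine ⟨n + 2, hk, ⟨⟨g, ?_⟩, ?_⟩, ⟨x, ?_⟩, ⟨y, ?_⟩⟩
    · intro z w hzw
      apply φ.injective
      rw [← hg z, ← hg w, hzw]
    · intro z w
      show G.Adj (f (g z)) (f (g w)) ↔ _
      rw [hg, hg, φ.map_adj_iff]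
    · apply f.injective
      show f (g x) = f a
      rw [hg, hx]
    · apply f.injective
      show f (g y) = f b
      rw [hg, hy]

lemma vmap_injective (φ : CNF) : Function.Injective (vmap φ) :=
  List.nodup_iff_injective_get.1 (nodup_verts _ _)

lemma vmap_range (φ : CNF) {x : Vtx} (hx : Valid (nvar φ) (ext' φ) x) :
    x ∈ Set.range (vmap φ) := by
  obtain ⟨i, hi⟩ := List.mem_iff_get.1 (mem_verts.2 hx)
  exact ⟨i, hi⟩

/-- the reduction is correct -/
theorem red_correct (φ : CNF) :
    Satisfiable φ ↔ OnCommonHole (red φ).G (red φ).u (red φ).v := by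
  have h1 := onCommonHole_comap ⟨vmap φ, vmap_injective φ⟩ (gr (nvar φ) (ext' φ))
    (fun x y h => vmap_range φ h.1) (red φ).u (red φ).v
  have hu : vmap φ (red φ).u = uu := rfl
  have hv : vmap φ (red φ).v = vv := rfl
  have h2 : OnCommonHole (red φ).G (red φ).u (red φ).v ↔
      OnCommonHole (gr (nvar φ) (ext' φ)) uu vv := by
    rw [← hu, ← hv]
    exact h1
  rw [h2, sat_iff]
  have hm : 1 ≤ (ext' φ).length := by simp [ext']
  constructor
  · rintro ⟨val, h⟩
    have h' : ∀ j, ∃ p, j < (ext' φ).length → (p < ((ext' φ).getD j []).length ∧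
        val (lit (ext' φ) j p).1 = (lit (ext' φ) j p).2) := by
      intro j
      by_cases hj : j < (ext' φ).length
      · obtain ⟨p, hp, hv⟩ := h j hj
        exact ⟨p, fun _ => ⟨hp, hv⟩⟩
      · exact ⟨0, fun h => absurd h hj⟩
    choose ch hch using h'
    exact hole_of_sat (nvar_pos φ) hm hch
  · intro h
    exact sat_of_hole (nvar_pos φ) hm (hlit_ext φ) h

/-- parity colouring -/
theorem red_colorable (φ : CNF) : (red φ).G.Colorable 2 := by
  refine ⟨Coloring.mk (fun i => ⟨(vmap φ i).k % 2, Nat.mod_lt _ (by omega)⟩) ?_⟩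
  intro a b hab
  have h : (gr (nvar φ) (ext' φ)).Adj (vmap φ a) (vmap φ b) := hab
  intro hEq
  rw [Fin.mk.injEq] at hEq
  obtain ⟨-, -, h | h | h⟩ := h
  · simp only [Stp] at h
    omega
  · simp only [Stp] at h
    omega
  · have h1 := h.1.2
    have h2 := h.2.1.2
    have h3 := h.2.2.2
    rw [h1, h2] at hEq
    cases hx : (lab (ext' φ) (vmap φ a)).2 <;> cases hy : (lab (ext' φ) (vmap φ b)).2 <;>
      simp [hx, hy] at hEq h3

theorem red_ne (φ : CNF) : (red φ).u ≠ (red φ).v := by
  intro h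
  have := congrArg Fin.val h
  simp [red] at this

theorem red_perfect (φ : CNF) : IsPerfect (red φ).G := isPerfect_of_colorable (red_colorable φ)

end Pool.Agent.MP_08b96b_lc
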