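import Pool.Agent.MP_08b96b_lc.Sat
import Pool.Agent.MP_08b96b_lc.HoleOfSat
import Pool.Agent.Lib.helper60.PTLib
import Pool.Agent.Lib.helper60.ToTM2

/-!
The reduction as a function, and its polynomial-time computability.
-/

set_option autoImplicit false

namespace Pool.Agent.MP_08b96b_lc

open SimpleGraph Lib.helper60

/-! ### the vertex list -/

/-- vertices of a block -/
def vblock (c i w : ℕ) : List Vtx :=
  ⟨c, i, 0, 0⟩ :: ⟨c, i, 0, 3⟩ :: (List.range w).flatMap (fun o => [⟨c, i, o, 1⟩, ⟨c, i, o, 2⟩])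

lemma mem_vblock {c i w : ℕ} {x : Vtx} : x ∈ vblock c i w ↔
    x.c = c ∧ x.i = i ∧ ((x.o = 0 ∧ (x.k = 0 ∨ x.k = 3)) ∨ (x.o < w ∧ (x.k = 1 ∨ x.k = 2))) := by
  obtain ⟨xc, xi, xo, xk⟩ := x
  simp only [vblock, List.mem_cons, Vtx.mk.injEq, List.mem_flatMap, List.mem_range,
    List.not_mem_nil, or_false]
  constructor
  · rintro (h | h | ⟨o, ho, h | h⟩) <;> omega
  · rintro ⟨h1, h2, (⟨h3, h4 | h4⟩ | ⟨h3, h4 | h4⟩)⟩
    · left; omega
    · right; left; omega
    · right; right; exact ⟨xo, h3, Or.inl ⟨h1, h2, rfl, h4⟩⟩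
    · right; right; exact ⟨xo, h3, Or.inr ⟨h1, h2, rfl, h4⟩⟩

lemma nodup_vblock (c i w : ℕ) : (vblock c i w).Nodup := by
  unfold vblock
  rw [List.nodup_cons, List.nodup_cons, List.nodup_flatMap]
  refine ⟨?_, ?_, ?_, ?_⟩
  · simp
  · simp
  · intro o _
    simp
  · refine List.Pairwise.imp (R := fun a b => a < b) ?_ List.pairwise_lt_range
    intro a b hab
    simp only [Function.onFun, List.disjoint_cons_left]
    simp
    omega

/-- all vertices -/
def verts (n : ℕ) (φ : CNF) : List Vtx :=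
  uu :: vv :: ((List.range n).flatMap (fun i => vblock 0 i 2 ++ vblock 1 i 2) ++
    (List.range φ.length).flatMap (fun i => vblock 2 i (φ.getD i []).length))

lemma mem_verts {n : ℕ} {φ : CNF} {x : Vtx} : x ∈ verts n φ ↔ Valid n φ x := by
  simp only [verts, List.mem_cons, List.mem_append, List.mem_flatMap, List.mem_range, mem_vblock,
    Valid]
  constructor
  · rintro (h | h | ⟨i, hi, h | h⟩ | ⟨i, hi, h1, h2, h⟩)
    · subst h; right; right; left; simp [uu]
    · subst h; right; right; right; simp [vv]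
    · left; omega
    · left; omega
    · right; left
      subst h2
      refine ⟨h1, hi, by omega, by omega, ?_⟩
      intro h3
      rcases h with h | h
      · omega
      · exact h.1
  · rintro (h | ⟨h1, h2, h3, h4, h5⟩ | h | h)
    · right; right; left
      refine ⟨x.i, h.2.1, ?_⟩
      omega
    · right; right; right
      refine ⟨x.i, h2, h1, rfl, ?_⟩
      have : x.k = 0 ∨ x.k = 1 ∨ x.k = 2 ∨ x.k = 3 := by omega
      rcases this with h | h | h | h
      · left; exact ⟨h4 (Or.inl h), Or.inl h⟩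
      · right; exact ⟨h5 (Or.inl h), Or.inl h⟩
      · right; exact ⟨h5 (Or.inr h), Or.inr h⟩
      · left; exact ⟨h4 (Or.inr h), Or.inr h⟩
    · left
      exact Vtx.ext h.1 h.2.1 h.2.2.1 h.2.2.2
    · right; left
      exact Vtx.ext h.1 h.2.1 h.2.2.1 h.2.2.2

lemma nodup_verts (n : ℕ) (φ : CNF) : (verts n φ).Nodup := by
  unfold verts
  rw [List.nodup_cons, List.nodup_cons, List.nodup_append, List.nodup_flatMap, List.nodup_flatMap]
  refine ⟨?_, ?_, ⟨?_, ?_⟩, ⟨?_, ?_⟩, ?_⟩
  · simp only [List.mem_cons, List.mem_append, List.mem_flatMap, mem_vblock]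
    simp [uu, vv]
  · simp only [List.mem_append, List.mem_flatMap, mem_vblock]
    simp [vv]
  · intro i _
    rw [List.nodup_append]
    refine ⟨nodup_vblock _ _ _, nodup_vblock _ _ _, ?_⟩
    intro a ha b hb hab
    rw [mem_vblock] at ha hb
    subst hab
    omega
  · refine List.Pairwise.imp (R := fun a b => a < b) ?_ List.pairwise_lt_range
    intro a b hab
    simp only [Function.onFun]
    intro x hx hy
    rw [List.mem_append, mem_vblock, mem_vblock] at hx hy
    omega
  · intro i _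
    exact nodup_vblock _ _ _
  · refine List.Pairwise.imp (R := fun a b => a < b) ?_ List.pairwise_lt_range
    intro a b hab
    simp only [Function.onFun]
    intro x hx hy
    rw [mem_vblock] at hx hy
    omega
  · intro a ha b hb hab
    subst hab
    simp only [List.mem_flatMap, List.mem_append, mem_vblock] at ha hb
    obtain ⟨i, _, h⟩ := ha
    obtain ⟨j, _, h'⟩ := hb
    omega

/-- decision of adjacency on existing vertices -/
def stpB (n : ℕ) (φ : CNF) (x y : Vtx) : Bool := decide (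
  (x.c = y.c ∧ x.i = y.i ∧ x.c ≤ 2 ∧ y.k = x.k + 1 ∧ (¬ x.k = 1 ∨ x.o = y.o)) ∨
  (x.k = 3 ∧ y.k = 0 ∧ ((x.c = 3 ∧ y.c ≤ 1 ∧ y.i = 0) ∨ (x.c ≤ 2 ∧ y.c = x.c ∧ y.i = x.i + 1) ∨
    (x.c = 0 ∧ x.i + 1 = n ∧ y.c = 4) ∨ (x.c = 1 ∧ x.i + 1 = n ∧ y.c = 2 ∧ y.i = 0) ∨
    (x.c = 2 ∧ x.i + 1 = φ.length ∧ y.c = 4))))

/-- active vertices -/
def actB (φ : CNF) (x : Vtx) : Bool :=
  decide (x.c ≤ 2 ∧ x.k = if (lab φ x).2 = true then 1 else 2)

/-- conflicts -/
def confB (φ : CNF) (x y : Vtx) : Bool :=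
  actB φ x && (actB φ y && decide ((lab φ x).1 = (lab φ y).1 ∧ ¬ (lab φ x).2 = (lab φ y).2))

/-- adjacency of existing vertices -/
def adjB (n : ℕ) (φ : CNF) (x y : Vtx) : Bool :=
  stpB n φ x y || (stpB n φ y x || confB φ x y)

lemma stpB_iff {n : ℕ} {φ : CNF} {x y : Vtx} : stpB n φ x y = true ↔ Stp n φ x y := by
  simp only [stpB, Stp, decide_eq_true_iff, imp_iff_not_or]

lemma confB_iff {φ : CNF} {x y : Vtx} : confB φ x y = true ↔ Conf φ x y := by
  simp only [confB, actB, Conf, Act, Bool.and_eq_true, decide_eq_true_iff, ne_eq]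

lemma adjB_iff {n : ℕ} {φ : CNF} {x y : Vtx} (hx : Valid n φ x) (hy : Valid n φ y) :
    adjB n φ x y = true ↔ (gr n φ).Adj x y := by
  simp only [adjB, Bool.or_eq_true, stpB_iff, confB_iff, gr_adj, hx, hy, true_and]

/-- number of variables used for a formula -/
def nvar (φ : CNF) : ℕ := φ.flatten.foldl (fun s l => s + l.1) 1

/-- the formula with a tautological clause added -/
def ext' (φ : CNF) : CNF := [(0, true), (0, false)] :: φ

/-- vertex map of the finite graph -/
def vmap (φ : CNF) : Fin (verts (nvar φ) (ext' φ)).length → Vtx :=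
  fun i => (verts (nvar φ) (ext' φ)).get i

lemma verts_length (n : ℕ) (φ : CNF) : 2 ≤ (verts n φ).length := by
  simp [verts]

/-- decidability of adjacency in the finite graph -/
@[instance_reducible] def decAdjRed (φ : CNF) :
    DecidableRel ((gr (nvar φ) (ext' φ)).comap (vmap φ)).Adj := fun i j =>
  decidable_of_iff (adjB (nvar φ) (ext' φ) (vmap φ i) (vmap φ j) = true)
    (adjB_iff (mem_verts.1 (List.get_mem _ i)) (mem_verts.1 (List.get_mem _ j)))

/-- the reduction -/
def red (φ : CNF) : HoleInput where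
  n := (verts (nvar φ) (ext' φ)).length
  G := (gr (nvar φ) (ext' φ)).comap (vmap φ)
  decAdj := decAdjRed φ
  u := ⟨0, lt_of_lt_of_le (by omega) (verts_length _ _)⟩
  v := ⟨1, lt_of_lt_of_le (by omega) (verts_length _ _)⟩

end Pool.Agent.MP_08b96b_lc
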