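import Pool.Agent.MP_08b96b_lc.Trace

/-!
A hole through the two special vertices yields a satisfying assignment.
-/

set_option autoImplicit false

namespace Pool.Agent.MP_08b96b_lc

open SimpleGraph Lib.helper60

variable {n : ℕ} {φ : CNF}

/-- the state of the two sides after `i` variable blocks -/
structure VarInv (n : ℕ) (φ : CNF) (K q : ℕ) (P N : ℕ → Vtx) (i : ℕ) : Prop where
  lt1 : 4 * i + 1 < q
  lt2 : 4 * i + 1 < K - q
  p1 : P (4 * i + 1) = ⟨0, i, 0, 0⟩
  n1 : N (4 * i + 1) = ⟨1, i, 0, 0⟩
  sp : Stp n φ (P (4 * i)) (P (4 * i + 1))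
  sn : Stp n φ (N (4 * i)) (N (4 * i + 1))

theorem sat_of_hole_aux (hn : 1 ≤ n) (hm : 1 ≤ φ.length)
    (hlit : ∀ j p, j < φ.length → p < (φ.getD j []).length → (lit φ j p).1 < n)
    {K : ℕ} {P : ℕ → Vtx} {q : ℕ} (hP : CycPos (gr n φ) K P) (hP0 : P 0 = uu) (hq0 : 0 < q)
    (hqK : q < K) (hPq : P q = vv) (hP1 : P 1 = ⟨0, 0, 0, 0⟩) (hPK : P (K - 1) = ⟨1, 0, 0, 0⟩) :
    ∃ val : ℕ → Bool, ∀ j < φ.length, ∃ p < (φ.getD j []).length,
      val (lit φ j p).1 = (lit φ j p).2 := by
  have hK4 := hP.four
  let N : ℕ → Vtx := fun i => P (K - i)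
  have hN : CycPos (gr n φ) K N := hP.reverse
  have hN0 : N 0 = uu := by
    show P (K - 0) = uu
    rw [Nat.sub_zero, hP.per, hP0]
  have hNq : N (K - q) = vv := by
    show P (K - (K - q)) = vv
    rw [show K - (K - q) = q by omega, hPq]
  have cross : ∀ l r, l < q → r < K - q → 2 ≤ l + r → ¬ (gr n φ).Adj (P l) (N r) := by
    intro l r hl hr h2 hadj
    have h3 : (gr n φ).Adj (P l) (P (K - r)) := hadj
    rw [hP.adj l (K - r) (by omega) (by omega)] at h3
    omega
  have cross' : ∀ l r, l < K - q → r < q → 2 ≤ l + r → ¬ (gr n φ).Adj (N l) (P r) := by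
    intro l r hl hr h2 hadj
    exact cross r l hr hl (by omega) hadj.symm
  -- the variable part
  have key : ∀ i, i < n → VarInv n φ K q P N i := by
    intro i
    induction i with
    | zero =>
      intro _
      have h1q : 1 < q := by
        rcases Nat.lt_or_ge 1 q with h | h
        · exact h
        · have : q = 1 := by omega
          rw [this, hP1] at hPq
          simp [vv] at hPq
      have h1q' : 1 < K - q := by
        rcases Nat.lt_or_ge 1 (K - q) with h | h
        · exact h
        · have : q = K - 1 := by omega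
          rw [this, hPK] at hPq
          simp [vv] at hPq
      refine ⟨h1q, h1q', hP1, hPK, ?_, ?_⟩
      · show Stp n φ (P 0) (P 1)
        rw [hP0, hP1]
        right
        simp [uu]
      · show Stp n φ (N 0) (N 1)
        have : N 1 = ⟨1, 0, 0, 0⟩ := hPK
        rw [hN0, this]
        right
        simp [uu]
    | succ i ih =>
      intro hi
      obtain ⟨l1, l2, p1, n1, sp, sn⟩ := ih (by omega)
      obtain ⟨o, ho, hq4, hp2, hp3, hp4, hps, -⟩ := var_block hP hN hqK (by omega) hPq hNq cross
        (c := 0) (c' := 1) (by omega) (by omega) p1 l1 sp n1 l2 sn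
      obtain ⟨o', ho', hq4', hn2, hn3, hn4, hns, -⟩ := var_block hN hP (by omega) hqK hNq hPq
        cross' (c := 1) (c' := 0) (by omega) (by omega) n1 l2 sn p1 l1 sp
      have vP := side_valid hP (l := 4 * i + 5) (by omega)
      have vN := side_valid hN (l := 4 * i + 5) (by omega)
      have e1 : P (4 * i + 5) = ⟨0, i + 1, 0, 0⟩ := by
        rw [hp4] at hps
        simp only [Stp, Valid] at hps vP
        apply Vtx.ext <;> simp only <;> omega
      have e2 : N (4 * i + 5) = ⟨1, i + 1, 0, 0⟩ := by
        rw [hn4] at hns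
        simp only [Stp, Valid] at hns vN
        apply Vtx.ext <;> simp only <;> omega
      have hq5 : 4 * i + 5 < q := by
        rcases Nat.lt_or_ge (4 * i + 5) q with h | h
        · exact h
        · have : 4 * i + 5 = q := by omega
          rw [this, hPq] at e1
          simp [vv] at e1
      have hq5' : 4 * i + 5 < K - q := by
        rcases Nat.lt_or_ge (4 * i + 5) (K - q) with h | h
        · exact h
        · have : 4 * i + 5 = K - q := by omega
          rw [this, hNq] at e2
          simp [vv] at e2
      exact ⟨hq5, hq5', e1, e2, hps, hns⟩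
  -- the choices
  have choice : ∀ i, i < n → ∃ o, o ≤ 1 ∧ P (4 * i + 2) = ⟨0, i, o, 1⟩ ∧
      P (4 * i + 3) = ⟨0, i, o, 2⟩ ∧ 4 * i + 4 < q ∧ 4 * i + 4 < K - q ∧
      N (4 * i + 4) = ⟨1, i, 0, 3⟩ ∧ Stp n φ (N (4 * i + 4)) (N (4 * i + 5)) := by
    intro i hi
    obtain ⟨l1, l2, p1, n1, sp, sn⟩ := key i hi
    obtain ⟨o, ho, hq4, hp2, hp3, hp4, hps, -⟩ := var_block hP hN hqK (by omega) hPq hNq cross
      (c := 0) (c' := 1) (by omega) (by omega) p1 l1 sp n1 l2 sn
    obtain ⟨o', ho', hq4', hn2, hn3, hn4, hns, -⟩ := var_block hN hP (by omega) hqK hNq hPq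
      cross' (c := 1) (c' := 0) (by omega) (by omega) n1 l2 sn p1 l1 sp
    exact ⟨o, ho, hp2, hp3, hq4, hq4', hn4, hns⟩
  let val : ℕ → Bool := fun i => decide (P (4 * i + 2) = ⟨0, i, 1, 1⟩)
  -- an active vertex with the label `(i, val i)` on the first side
  have actv : ∀ i, i < n → ∃ l, 2 ≤ l ∧ l < q ∧ Act φ (P l) ∧ lab φ (P l) = (i, val i) := by
    intro i hi
    obtain ⟨o, ho, hp2, hp3, hq4, -, -, -⟩ := choice i hi
    rcases Nat.eq_zero_or_pos o with h0 | h1
    · subst h0
      refine ⟨4 * i + 3, by omega, by omega, ?_, ?_⟩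
      · rw [hp3]; exact act_false (by omega)
      · rw [hp3, lab_var (by omega)]
        have : val i = false := by
          simp [val, hp2]
        rw [this]
        simp
    · have ho1 : o = 1 := by omega
      subst ho1
      refine ⟨4 * i + 2, by omega, by omega, ?_, ?_⟩
      · rw [hp2]; exact act_true (by omega)
      · rw [hp2, lab_var (by omega)]
        have : val i = true := by
          simp [val, hp2]
        rw [this]
        simp
  -- label consistency on the second side
  have LC : ∀ r, r < K - q → Act φ (N r) → (lab φ (N r)).1 < n →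
      (lab φ (N r)).2 = val (lab φ (N r)).1 := by
    intro r hr hact hlt
    by_contra hne
    obtain ⟨l, hl2, hlq, hla, hlab⟩ := actv _ hlt
    refine cross l r hlq hr (by omega) ⟨side_valid hP (by omega), side_valid hN (by omega),
      Or.inr (Or.inr ⟨hla, hact, ?_, ?_⟩)⟩
    · rw [hlab]
    · rw [hlab]
      intro h
      exact hne h.symm
  -- labels of valid active clause vertices are below `n`
  have lablt : ∀ x, Valid n φ x → Act φ x → (lab φ x).1 < n := by
    intro x hx hact
    have hk := act_k hact
    by_cases hc : x.c ≤ 1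
    · simp only [lab, hc, if_true]
      simp only [Valid] at hx
      omega
    · simp only [lab, hc, if_false]
      apply hlit
      · simp only [Valid] at hx
        omega
      · simp only [Valid] at hx
        omega
  have noconf : ∀ r, r + 1 ≤ K - q → ¬ Conf φ (N r) (N (r + 1)) := by
    intro r hr hconf
    have hr1 : r + 1 < K - q := by
      rcases Nat.lt_or_ge (r + 1) (K - q) with h | h
      · exact h
      · have : r + 1 = K - q := by omega
        have h2 := hconf.2.1
        rw [this, hNq] at h2
        exact absurd rfl (act_ne_v h2)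
    have v1 := side_valid hN (l := r) (by omega)
    have v2 := side_valid hN (l := r + 1) (by omega)
    have h1 := LC r (by omega) hconf.1 (lablt _ v1 hconf.1)
    have h2 := LC (r + 1) hr1 hconf.2.1 (lablt _ v2 hconf.2.1)
    have h3 := hconf.2.2.1
    have h4 := hconf.2.2.2
    rw [h3] at h1
    rw [← h2] at h1
    exact h4 h1
  refine ⟨val, ?_⟩
  -- the clause part
  obtain ⟨m, hmdef⟩ : ∃ m, n = m + 1 := ⟨n - 1, by omega⟩
  have main : ∀ j, j < φ.length →
      (4 * n + 4 * j + 1 < K - q ∧ N (4 * n + 4 * j + 1) = ⟨2, j, 0, 0⟩ ∧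
        Stp n φ (N (4 * n + 4 * j)) (N (4 * n + 4 * j + 1))) := by
    intro j
    induction j with
    | zero =>
      intro _
      obtain ⟨o, ho, hp2, hp3, hq4, hq4', hn4, hns⟩ := choice m (by omega)
      have vN := side_valid hN (l := 4 * m + 5) (by omega)
      have e1 : N (4 * m + 5) = ⟨2, 0, 0, 0⟩ := by
        rw [hn4] at hns
        simp only [Stp, Valid] at hns vN
        apply Vtx.ext <;> simp only <;> omega
      have h5 : 4 * m + 5 < K - q := by
        rcases Nat.lt_or_ge (4 * m + 5) (K - q) with h | h
        · exact h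
        · have : 4 * m + 5 = K - q := by omega
          rw [this, hNq] at e1
          simp [vv] at e1
      have e2 : 4 * n + 4 * 0 + 1 = 4 * m + 5 := by omega
      have e3 : 4 * n + 4 * 0 = 4 * m + 4 := by omega
      rw [e2, e3]
      exact ⟨h5, e1, hns⟩
    | succ j ih =>
      intro hj
      obtain ⟨l1, n1, sn⟩ := ih (by omega)
      set b := 4 * n + 4 * j with hb
      obtain ⟨o, hn2⟩ := side_first hN (by omega) (by omega) n1 sn
      have lt2 : b + 2 < K - q := by
        rcases Nat.lt_or_ge (b + 2) (K - q) with h | h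
        · exact h
        · have : b + 2 = K - q := by omega
          rw [this, hNq] at hn2
          simp [vv] at hn2
      have hn3 : N (b + 3) = ⟨2, j, o, 2⟩ := by
        rcases side_second hN (by omega) (by omega) n1 hn2 with h | h
        · exact h
        · exact absurd h (noconf (b + 2) (by omega))
      have lt3 : b + 3 < K - q := by
        rcases Nat.lt_or_ge (b + 3) (K - q) with h | h
        · exact h
        · have : b + 3 = K - q := by omega
          rw [this, hNq] at hn3
          simp [vv] at hn3
      have hn4 : N (b + 4) = ⟨2, j, 0, 3⟩ := by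
        rcases side_exit hN (by omega) (by omega) hn2 hn3 with h | h
        · exact h
        · exact absurd h (noconf (b + 3) (by omega))
      have lt4 : b + 4 < K - q := by
        rcases Nat.lt_or_ge (b + 4) (K - q) with h | h
        · exact h
        · have : b + 4 = K - q := by omega
          rw [this, hNq] at hn4
          simp [vv] at hn4
      have hns : Stp n φ (N (b + 4)) (N (b + 5)) := by
        rcases side_next hN (by omega) hn3 hn4 with ⟨o', ho', hn5⟩ | h
        · exfalso
          have lt5 : b + 5 < K - q := by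
            rcases Nat.lt_or_ge (b + 5) (K - q) with h | h
            · exact h
            · have : b + 5 = K - q := by omega
              rw [this, hNq] at hn5
              simp [vv] at hn5
          exact noconf (b + 5) (by omega) (side_back hN (by omega) (by omega) n1 hn4 hn5)
        · exact h
      have vN := side_valid hN (l := b + 5) (by omega)
      have e1 : N (b + 5) = ⟨2, j + 1, 0, 0⟩ := by
        rw [hn4] at hns
        simp only [Stp, Valid] at hns vN
        apply Vtx.ext <;> simp only <;> omega
      have h5 : b + 5 < K - q := by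
        rcases Nat.lt_or_ge (b + 5) (K - q) with h | h
        · exact h
        · have : b + 5 = K - q := by omega
          rw [this, hNq] at e1
          simp [vv] at e1
      have e2 : 4 * n + 4 * (j + 1) + 1 = b + 5 := by omega
      have e3 : 4 * n + 4 * (j + 1) = b + 4 := by omega
      rw [e2, e3]
      exact ⟨h5, e1, hns⟩
  intro j hj
  obtain ⟨l1, n1, sn⟩ := main j hj
  set b := 4 * n + 4 * j with hb
  obtain ⟨o, hn2⟩ := side_first hN (by omega) (by omega) n1 sn
  have lt2 : b + 2 < K - q := by
    rcases Nat.lt_or_ge (b + 2) (K - q) with h | h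
    · exact h
    · have : b + 2 = K - q := by omega
      rw [this, hNq] at hn2
      simp [vv] at hn2
  have hn3 : N (b + 3) = ⟨2, j, o, 2⟩ := by
    rcases side_second hN (by omega) (by omega) n1 hn2 with h | h
    · exact h
    · exact absurd h (noconf (b + 2) (by omega))
  have lt3 : b + 3 < K - q := by
    rcases Nat.lt_or_ge (b + 3) (K - q) with h | h
    · exact h
    · have : b + 3 = K - q := by omega
      rw [this, hNq] at hn3
      simp [vv] at hn3
  have v2 := side_valid hN (l := b + 2) (by omega)
  have ho : o < (φ.getD j []).length := by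
    rw [hn2] at v2
    rcases v2 with h | h | h | h
    · exact absurd h.1 (by simp)
    · exact h.2.2.2.2 (Or.inl rfl)
    · exact absurd h.1 (by simp)
    · exact absurd h.1 (by simp)
  refine ⟨o, ho, ?_⟩
  have hlab : ∀ k, lab φ ⟨2, j, o, k⟩ = lit φ j o := by
    intro k
    simp [lab]
  by_cases hs : (lit φ j o).2 = true
  · have hact : Act φ (N (b + 2)) := by
      rw [hn2]
      refine ⟨by simp, ?_⟩
      rw [hlab, hs]
      simp
    have := LC (b + 2) lt2 hact (by rw [hn2, hlab]; exact hlit j o hj ho)
    rw [hn2, hlab] at this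
    exact this.symm
  · have hact : Act φ (N (b + 3)) := by
      rw [hn3]
      refine ⟨by simp, ?_⟩
      rw [hlab]
      simp [hs]
    have := LC (b + 3) lt3 hact (by rw [hn3, hlab]; exact hlit j o hj ho)
    rw [hn3, hlab] at this
    exact this.symm

theorem sat_of_hole (hn : 1 ≤ n) (hm : 1 ≤ φ.length)
    (hlit : ∀ j p, j < φ.length → p < (φ.getD j []).length → (lit φ j p).1 < n)
    (h : OnCommonHole (gr n φ) uu vv) :
    ∃ val : ℕ → Bool, ∀ j < φ.length, ∃ p < (φ.getD j []).length,
      val (lit φ j p).1 = (lit φ j p).2 := by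
  obtain ⟨K, P, q, hP, hP0, hq0, hqK, hPq⟩ := h.pos (by simp [uu, vv])
  have hK4 := hP.four
  have a1 : (gr n φ).Adj uu (P 1) := by
    rw [← hP0]
    exact side_adj hP (l := 0) (by omega)
  have a2 : (gr n φ).Adj uu (P (K - 1)) := by
    have := side_adj hP (l := K - 1) (by omega)
    rw [show K - 1 + 1 = K by omega, hP.per, hP0] at this
    exact this.symm
  obtain ⟨c1, i1, o1, k1⟩ := nbr_u a1
  obtain ⟨c2, i2, o2, k2⟩ := nbr_u a2
  have hne := hP.inj 1 (K - 1) (by omega) (by omega)
  have hcne : (P 1).c ≠ (P (K - 1)).c := by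
    intro h
    apply hne
    apply Vtx.ext <;> omega
  rcases Nat.eq_zero_or_pos (P 1).c with h0 | h1
  · exact sat_of_hole_aux hn hm hlit hP hP0 hq0 hqK hPq
      (Vtx.ext h0 i1 o1 k1) (Vtx.ext (by simp only; omega) i2 o2 k2)
  · refine sat_of_hole_aux hn hm hlit (P := fun i => P (K - i)) (q := K - q) hP.reverse ?_
      (by omega) (by omega) ?_ ?_ ?_
    · simp only [Nat.sub_zero, hP.per, hP0]
    · show P (K - (K - q)) = vv
      rw [show K - (K - q) = q by omega, hPq]
    · exact Vtx.ext (by simp only; omega) i2 o2 k2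
    · show P (K - (K - 1)) = _
      rw [show K - (K - 1) = 1 by omega]
      exact Vtx.ext (by simp only; omega) i1 o1 k1

end Pool.Agent.MP_08b96b_lc
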