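import Pool.Agent.MP_08b96b_lc.Graph

/-!
Tracing a hole through the two special vertices.
-/

set_option autoImplicit false

namespace Pool.Agent.MP_08b96b_lc

open SimpleGraph Lib.helper60

variable {n : ℕ} {φ : CNF}

section side

variable {K : ℕ} {S T : ℕ → Vtx}

lemma side_adj (hS : CycPos (gr n φ) K S) {l : ℕ} (hl : l < K) : (gr n φ).Adj (S l) (S (l + 1)) :=
  (hS.adj l (l + 1) (by omega) (by omega)).2 (Or.inl rfl)

lemma side_valid (hS : CycPos (gr n φ) K S) {l : ℕ} (hl : l < K) : Valid n φ (S l) :=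
  (side_adj hS hl).1

lemma side_first (hS : CycPos (gr n φ) K S) {b c i : ℕ} (hc : c ≤ 2) (hbK : b + 2 < K)
    (h1 : S (b + 1) = ⟨c, i, 0, 0⟩) (hp : Stp n φ (S b) (S (b + 1))) :
    ∃ o, S (b + 2) = ⟨c, i, o, 1⟩ := by
  have hadj := side_adj hS (l := b + 1) (by omega)
  rcases nbr_ent (by rw [h1]) hadj with ⟨h2, h3, h4⟩ | h2
  · refine ⟨(S (b + 2)).o, ?_⟩
    rw [h1] at h2 h3
    exact Vtx.ext h2 h3 rfl h4
  · have := pred_unique (by rw [h1]; exact hc) (by rw [h1]) (side_valid hS (l := b) (by omega))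
      (side_valid hS (l := b + 2) (by omega)) hp h2
    exact absurd this (hS.inj b (b + 2) (by omega) (by omega))

lemma side_second (hS : CycPos (gr n φ) K S) {b c i o : ℕ} (hc : c ≤ 2) (hbK : b + 3 < K)
    (h1 : S (b + 1) = ⟨c, i, 0, 0⟩) (h2 : S (b + 2) = ⟨c, i, o, 1⟩) :
    S (b + 3) = ⟨c, i, o, 2⟩ ∨ Conf φ (S (b + 2)) (S (b + 3)) := by
  have hadj := side_adj hS (l := b + 2) (by omega)
  rcases nbr_first (by rw [h2]; exact hc) (by rw [h2]) hadj with h | h | h
  · rw [h2] at h
    exact absurd (h1.trans h.symm) (hS.inj (b + 1) (b + 3) (by omega) (by omega))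
  · rw [h2] at h
    exact Or.inl h
  · exact Or.inr h

lemma side_exit (hS : CycPos (gr n φ) K S) {b c i o : ℕ} (hc : c ≤ 2) (hbK : b + 4 < K)
    (h2 : S (b + 2) = ⟨c, i, o, 1⟩) (h3 : S (b + 3) = ⟨c, i, o, 2⟩) :
    S (b + 4) = ⟨c, i, 0, 3⟩ ∨ Conf φ (S (b + 3)) (S (b + 4)) := by
  have hadj := side_adj hS (l := b + 3) (by omega)
  rcases nbr_second (by rw [h3]; exact hc) (by rw [h3]) hadj with h | h | h
  · rw [h3] at h
    exact absurd (h2.trans h.symm) (hS.inj (b + 2) (b + 4) (by omega) (by omega))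
  · rw [h3] at h
    exact Or.inl h
  · exact Or.inr h

lemma side_next (hS : CycPos (gr n φ) K S) {b c i o : ℕ} (hbK : b + 5 < K)
    (h3 : S (b + 3) = ⟨c, i, o, 2⟩) (h4 : S (b + 4) = ⟨c, i, 0, 3⟩) :
    (∃ o', o' ≠ o ∧ S (b + 5) = ⟨c, i, o', 2⟩) ∨ Stp n φ (S (b + 4)) (S (b + 5)) := by
  have hadj := side_adj hS (l := b + 4) (by omega)
  rcases nbr_exit (by rw [h4]) hadj with ⟨h5, h6, h7⟩ | h
  · left
    rw [h4] at h5 h6
    have h8 : S (b + 5) = ⟨c, i, (S (b + 5)).o, 2⟩ := Vtx.ext h5 h6 rfl h7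
    refine ⟨(S (b + 5)).o, ?_, h8⟩
    intro h9
    rw [h9] at h8
    exact absurd (h3.trans h8.symm) (hS.inj (b + 3) (b + 5) (by omega) (by omega))
  · exact Or.inr h

lemma side_back (hS : CycPos (gr n φ) K S) {b c i o : ℕ} (hc : c ≤ 2) (hbK : b + 6 < K)
    (h1 : S (b + 1) = ⟨c, i, 0, 0⟩) (h4 : S (b + 4) = ⟨c, i, 0, 3⟩)
    (h5 : S (b + 5) = ⟨c, i, o, 2⟩) : Conf φ (S (b + 5)) (S (b + 6)) := by
  have hadj := side_adj hS (l := b + 5) (by omega)
  rcases nbr_second (by rw [h5]; exact hc) (by rw [h5]) hadj with h | h | h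
  · exfalso
    rw [h5] at h
    have v1 := side_valid hS (l := b + 1) (by omega)
    have v2 := side_valid hS (l := b + 6) (by omega)
    rw [h1] at v1
    rw [h] at v2
    have hadj2 := first_adj_ent hc v2 v1
    rw [← h1] at hadj2
    have h6 : (gr n φ).Adj (S (b + 1)) (S (b + 6)) := by
      rw [h]; exact hadj2
    rw [hS.adj (b + 1) (b + 6) (by omega) (by omega)] at h6
    omega
  · rw [h5] at h
    exact absurd (h4.trans h.symm) (hS.inj (b + 4) (b + 6) (by omega) (by omega))
  · exact h

/-- conflicts inside variable chains -/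
lemma act_true {c i : ℕ} (hc : c ≤ 1) : Act φ ⟨c, i, 1, 1⟩ := by
  refine ⟨by simp only; omega, ?_⟩
  simp [lab, hc]

lemma act_false {c i : ℕ} (hc : c ≤ 1) : Act φ ⟨c, i, 0, 2⟩ := by
  refine ⟨by simp only; omega, ?_⟩
  simp [lab, hc]

lemma lab_var {c i o k : ℕ} (hc : c ≤ 1) : lab φ ⟨c, i, o, k⟩ = (i, decide (o = 1)) := by
  simp [lab, hc]

lemma not_act_first {c i : ℕ} (hc : c ≤ 1) : ¬ Act φ ⟨c, i, 0, 1⟩ := by
  rintro ⟨-, h⟩
  simp [lab, hc] at h

lemma not_act_second {c i : ℕ} (hc : c ≤ 1) : ¬ Act φ ⟨c, i, 1, 2⟩ := by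
  rintro ⟨-, h⟩
  simp [lab, hc] at h

lemma conf_tf {c c' i : ℕ} (hc : c ≤ 1) (hc' : c' ≤ 1) :
    Conf φ ⟨c, i, 1, 1⟩ ⟨c', i, 0, 2⟩ := by
  refine ⟨act_true hc, act_false hc', ?_, ?_⟩
  · rw [lab_var hc, lab_var hc']
  · rw [lab_var hc, lab_var hc']
    simp

lemma Conf.symm {x y : Vtx} (h : Conf φ x y) : Conf φ y x :=
  ⟨h.2.1, h.1, h.2.2.1.symm, h.2.2.2.symm⟩

/-- two vertices in conflict with a common vertex: if `x` conflicts with `y` and `z` is active with
the same label as `x`, then `z` conflicts with `y` -/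
lemma Conf.transfer {x y z : Vtx} (h : Conf φ x y) (hz : Act φ z) (hl : lab φ z = lab φ x) :
    Conf φ z y := ⟨hz, h.2.1, by rw [hl]; exact h.2.2.1, by rw [hl]; exact h.2.2.2⟩

/-- one block of the variable chains, traversed simultaneously on both sides -/
lemma var_block (hS : CycPos (gr n φ) K S) (hT : CycPos (gr n φ) K T) {Q Q' : ℕ}
    (hQ : Q < K) (hQ' : Q' < K) (hSQ : S Q = vv) (hTQ : T Q' = vv)
    (cross : ∀ l r, l < Q → r < Q' → 2 ≤ l + r → ¬ (gr n φ).Adj (S l) (T r))
    {b c c' i : ℕ} (hc : c ≤ 1) (hc' : c' ≤ 1)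
    (hSb : S (b + 1) = ⟨c, i, 0, 0⟩) (hbQ : b + 1 < Q) (hSp : Stp n φ (S b) (S (b + 1)))
    (hTb : T (b + 1) = ⟨c', i, 0, 0⟩) (hbQ' : b + 1 < Q') (hTp : Stp n φ (T b) (T (b + 1))) :
    ∃ o, o ≤ 1 ∧ b + 4 < Q ∧ S (b + 2) = ⟨c, i, o, 1⟩ ∧ S (b + 3) = ⟨c, i, o, 2⟩ ∧
      S (b + 4) = ⟨c, i, 0, 3⟩ ∧ Stp n φ (S (b + 4)) (S (b + 5)) ∧ T (b + 2) = ⟨c', i, o, 1⟩ := by
  obtain ⟨o, hS2⟩ := side_first hS (by omega) (by omega) hSb hSp
  obtain ⟨o', hT2⟩ := side_first hT (by omega) (by omega) hTb hTp
  have hQ2 : b + 2 < Q := by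
    rcases Nat.lt_or_ge (b + 2) Q with h | h
    · exact h
    · have : b + 2 = Q := by omega
      rw [this, hSQ] at hS2
      simp [vv] at hS2
  have hQ'2 : b + 2 < Q' := by
    rcases Nat.lt_or_ge (b + 2) Q' with h | h
    · exact h
    · have : b + 2 = Q' := by omega
      rw [this, hTQ] at hT2
      simp [vv] at hT2
  have vS2 := side_valid hS (l := b + 2) (by omega)
  have vT2 := side_valid hT (l := b + 2) (by omega)
  have ho : o ≤ 1 := by
    rw [hS2] at vS2
    simp only [Valid] at vS2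
    omega
  have ho' : o' ≤ 1 := by
    rw [hT2] at vT2
    simp only [Valid] at vT2
    omega
  -- helper: adjacency from conflict
  have mkadj : ∀ l r, l < Q → r < Q' → Conf φ (S l) (T r) → 2 ≤ l + r → False := by
    intro l r hl hr hconf h2
    exact cross l r hl hr h2 ⟨side_valid hS (by omega), side_valid hT (by omega),
      Or.inr (Or.inr hconf)⟩
  have hoo : o' = o := by
    by_contra hne
    rcases Nat.eq_zero_or_pos o with h0 | h1
    · -- `o = 0`, `o' = 1`
      have ho1 : o' = 1 := by omega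
      subst h0 ho1
      rcases side_second hS (by omega) (by omega) hSb hS2 with h | h
      · have hQ3 : b + 3 < Q := by
          rcases Nat.lt_or_ge (b + 3) Q with h' | h'
          · exact h'
          · have : b + 3 = Q := by omega
            rw [this, hSQ] at h
            simp [vv] at h
        refine mkadj (b + 3) (b + 2) hQ3 hQ'2 ?_ (by omega)
        rw [h, hT2]
        exact (conf_tf hc' hc).symm
      · rw [hS2] at h
        exact not_act_first hc h.1
    · have ho1 : o = 1 := by omega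
      have ho0 : o' = 0 := by omega
      subst ho1 ho0
      rcases side_second hT (by omega) (by omega) hTb hT2 with h | h
      · have hQ3 : b + 3 < Q' := by
          rcases Nat.lt_or_ge (b + 3) Q' with h' | h'
          · exact h'
          · have : b + 3 = Q' := by omega
            rw [this, hTQ] at h
            simp [vv] at h
        refine mkadj (b + 2) (b + 3) hQ2 hQ3 ?_ (by omega)
        rw [h, hS2]
        exact conf_tf hc hc'
      · rw [hT2] at h
        exact not_act_first hc' h.1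
  subst hoo
  -- position of an active vertex is below `Q`
  have actQ : ∀ l, l ≤ Q → Act φ (S l) → l < Q := by
    intro l hl hact
    rcases Nat.lt_or_ge l Q with h' | h'
    · exact h'
    · have : l = Q := by omega
      rw [this, hSQ] at hact
      exact absurd rfl (act_ne_v hact)
  have actQ' : ∀ l, l ≤ Q' → Act φ (T l) → l < Q' := by
    intro l hl hact
    rcases Nat.lt_or_ge l Q' with h' | h'
    · exact h'
    · have : l = Q' := by omega
      rw [this, hTQ] at hact
      exact absurd rfl (act_ne_v hact)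
  rcases Nat.eq_zero_or_pos o' with h0 | h1
  · subst h0
    -- false option
    have hS3 : S (b + 3) = ⟨c, i, 0, 2⟩ := by
      rcases side_second hS (by omega) (by omega) hSb hS2 with h | h
      · exact h
      · rw [hS2] at h
        exact absurd h.1 (not_act_first hc)
    have hT3 : T (b + 3) = ⟨c', i, 0, 2⟩ := by
      rcases side_second hT (by omega) (by omega) hTb hT2 with h | h
      · exact h
      · rw [hT2] at h
        exact absurd h.1 (not_act_first hc')
    have hQ3 : b + 3 < Q := actQ _ (by omega) (by rw [hS3]; exact act_false hc)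
    have hQ'3 : b + 3 < Q' := actQ' _ (by omega) (by rw [hT3]; exact act_false hc')
    have hS4 : S (b + 4) = ⟨c, i, 0, 3⟩ := by
      rcases side_exit hS (by omega) (by omega) hS2 hS3 with h | h
      · exact h
      · exfalso
        have hQ4 : b + 4 < Q := actQ _ (by omega) h.2.1
        refine mkadj (b + 4) (b + 3) hQ4 hQ'3 ?_ (by omega)
        refine (h.transfer (z := T (b + 3)) ?_ ?_).symm
        · rw [hT3]; exact act_false hc'
        · rw [hT3, hS3, lab_var hc, lab_var hc']
    have hQ4 : b + 4 < Q := by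
      rcases Nat.lt_or_ge (b + 4) Q with h' | h'
      · exact h'
      · have : b + 4 = Q := by omega
        rw [this, hSQ] at hS4
        simp [vv] at hS4
    refine ⟨0, by omega, hQ4, hS2, hS3, hS4, ?_, hT2⟩
    rcases side_next hS (by omega) hS3 hS4 with ⟨o'', ho'', hS5⟩ | h
    · exfalso
      have vS5 := side_valid hS (l := b + 5) (by omega)
      have ho1 : o'' = 1 := by
        rw [hS5] at vS5
        simp only [Valid] at vS5
        omega
      subst ho1
      have hQ5 : b + 5 < Q := by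
        rcases Nat.lt_or_ge (b + 5) Q with h' | h'
        · exact h'
        · have : b + 5 = Q := by omega
          rw [this, hSQ] at hS5
          simp [vv] at hS5
      have := side_back hS (by omega) (by omega) hSb hS4 hS5
      rw [hS5] at this
      exact not_act_second hc this.1
    · exact h
  · have ho1 : o' = 1 := by omega
    subst ho1
    -- true option
    have hS3 : S (b + 3) = ⟨c, i, 1, 2⟩ := by
      rcases side_second hS (by omega) (by omega) hSb hS2 with h | h
      · exact h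
      · exfalso
        have hQ3 : b + 3 < Q := actQ _ (by omega) h.2.1
        refine mkadj (b + 3) (b + 2) hQ3 hQ'2 ?_ (by omega)
        refine (h.transfer (z := T (b + 2)) ?_ ?_).symm
        · rw [hT2]; exact act_true hc'
        · rw [hT2, hS2, lab_var hc, lab_var hc']
    have hQ3 : b + 3 < Q := by
      rcases Nat.lt_or_ge (b + 3) Q with h' | h'
      · exact h'
      · have : b + 3 = Q := by omega
        rw [this, hSQ] at hS3
        simp [vv] at hS3
    have hS4 : S (b + 4) = ⟨c, i, 0, 3⟩ := by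
      rcases side_exit hS (by omega) (by omega) hS2 hS3 with h | h
      · exact h
      · rw [hS3] at h
        exact absurd h.1 (not_act_second hc)
    have hQ4 : b + 4 < Q := by
      rcases Nat.lt_or_ge (b + 4) Q with h' | h'
      · exact h'
      · have : b + 4 = Q := by omega
        rw [this, hSQ] at hS4
        simp [vv] at hS4
    refine ⟨1, le_rfl, hQ4, hS2, hS3, hS4, ?_, hT2⟩
    rcases side_next hS (by omega) hS3 hS4 with ⟨o'', ho'', hS5⟩ | h
    · exfalso
      have vS5 := side_valid hS (l := b + 5) (by omega)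
      have ho0 : o'' = 0 := by
        rw [hS5] at vS5
        simp only [Valid] at vS5
        omega
      subst ho0
      have hconf : Conf φ (S (b + 2)) (S (b + 5)) := by
        rw [hS2, hS5]
        exact conf_tf hc hc
      have hadj : (gr n φ).Adj (S (b + 2)) (S (b + 5)) :=
        ⟨side_valid hS (by omega), vS5, Or.inr (Or.inr hconf)⟩
      rw [hS.adj (b + 2) (b + 5) (by omega) (by omega)] at hadj
      omega
    · exact h

end side

end Pool.Agent.MP_08b96b_lc
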